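import Pool.Agent.DSC.Defs

/-! DSC / Ag: arguments of values of characters and dissociation.

PROOF. `arg_small`: `Complex.norm_sub_mem_Icc_angle` and `Complex.angle_eq_abs_arg` (or `‖z - 1‖ = 2 |sin (arg z / 2)|` and
`|sin x| ≥ 2/π |x|` for `|x| ≤ π/2`) give `2/π |arg z| ≤ ‖z - 1‖ ≤ ρ`.
`arg_window`: `w = z exp(-θ i)` has norm one and `|arg w| ≤ π/2 ρ ≤ δ` by `arg_small`; `z = exp ((arg w + θ) i)` with
`arg w + θ ∈ [θ - δ, θ + δ] ⊆ [0, π]`, so `arg z = arg w + θ`.
`dissoc_of_arg`: the `b u`, `u < D`, are distinct: for `v < u < D` with `b v = b u` the hypothesis for `u` gives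
`|arg (χ u (b u))| = |arg (χ u (b v))| < arg (χ u (b u))`. Suppose `∑ ε x x = 0` over the image with `ε x ∈ {-1,0,1}`, not all
zero; let `u < D` be the largest with `ε (b u) ≠ 0`. Then `∑_{v ≤ u} ε (b v) • b v = 0`; apply `χ u`:
`exp (i ∑_{v ≤ u} ε (b v) arg (χ u (b v))) = 1`, so the real number `∑_{v ≤ u} ε (b v) arg (χ u (b v))` is in `2π ℤ`, and it has
absolute value `≤ ∑_{v<u} |arg (χ u (b v))| + arg (χ u (b u)) < 2 arg (χ u (b u)) ≤ 2π`, so it is zero; but then
`arg (χ u (b u)) = |ε (b u) arg (χ u (b u))| ≤ ∑_{v<u} |arg (χ u (b v))| < arg (χ u (b u))`. (See also DSB/An.lean, which treats a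
similar situation.) -/

set_option autoImplicit false

open Finset

namespace DSC

theorem arg_small (z : ℂ) (hz : ‖z‖ = 1) (ρ : ℝ) (h : ‖z - 1‖ ≤ ρ) : |Complex.arg z| ≤ Real.pi / 2 * ρ := by
  have hpi := Real.pi_pos
  have e0 : z = Complex.exp (Complex.I * (z.arg : ℂ)) := by
    have := Complex.norm_mul_exp_arg_mul_I z
    rw [hz] at this
    rw [mul_comm Complex.I]
    simpa using this.symm
  have e1 : ‖z - 1‖ = ‖2 * Real.sin (z.arg / 2)‖ := by
    conv_lhs => rw [e0]
    exact Complex.norm_exp_I_mul_ofReal_sub_one _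
  have harg : |z.arg / 2| ≤ Real.pi / 2 := by
    rw [abs_div, abs_two]
    have := Complex.abs_arg_le_pi z
    linarith
  have e2 := Real.mul_abs_le_abs_sin harg
  rw [e1, norm_mul, Real.norm_eq_abs, Real.norm_eq_abs, abs_two] at h
  rw [abs_div, abs_two] at e2
  have e3 : 2 / Real.pi * (|z.arg| / 2) = |z.arg| / Real.pi := by ring
  rw [e3, div_le_iff₀ hpi] at e2
  nlinarith

theorem arg_window (z : ℂ) (hz : ‖z‖ = 1) (θ δ ρ : ℝ) (h0 : 0 ≤ θ - δ) (h1 : θ + δ ≤ Real.pi)
    (hδ : Real.pi / 2 * ρ ≤ δ) (h : ‖z * Complex.exp (-((θ : ℂ) * Complex.I)) - 1‖ ≤ ρ) :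
    |Complex.arg z - θ| ≤ δ := by
  have hpi := Real.pi_pos
  set w : ℂ := z * Complex.exp (-((θ : ℂ) * Complex.I)) with hw
  have hwn : ‖w‖ = 1 := by
    rw [hw, norm_mul, hz, one_mul]
    have e0 : (-((θ : ℂ) * Complex.I)) = ((-θ : ℝ) : ℂ) * Complex.I := by
      push_cast
      ring
    rw [e0]
    exact Complex.norm_exp_ofReal_mul_I _
  have h2 : |Complex.arg w| ≤ δ := (arg_small w hwn ρ h).trans hδ
  have h3 : w = Complex.exp ((w.arg : ℂ) * Complex.I) := by
    have := Complex.norm_mul_exp_arg_mul_I w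
    rw [hwn] at this
    simpa using this.symm
  have h4 : z = Complex.exp (((w.arg + θ : ℝ) : ℂ) * Complex.I) := by
    have e1 : z = w * Complex.exp ((θ : ℂ) * Complex.I) := by
      rw [hw, mul_assoc, ← Complex.exp_add]
      simp
    rw [e1]
    conv_lhs => rw [h3]
    rw [← Complex.exp_add]
    congr 1
    push_cast
    ring
  have h5 := abs_le.1 h2
  have h6 : z.arg = w.arg + θ := by
    have him : (((w.arg + θ : ℝ) : ℂ) * Complex.I).im = w.arg + θ := by simp
    have h7 := Complex.log_exp (x := ((w.arg + θ : ℝ) : ℂ) * Complex.I) (by rw [him]; linarith)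
      (by rw [him]; linarith)
    rw [← Complex.log_im, h4, h7, him]
  rw [h6]
  simpa using h2

variable {G : Type*} [AddCommGroup G] [Fintype G]

omit [Fintype G] in
private theorem dsc_ag_sum (ψ : AddChar G ℂ) {ι : Type*} (s : Finset ι) (g : ι → G) (ε : ι → ℤ) (y : ι → ℝ)
    (h : ∀ i ∈ s, ψ (g i) = Complex.exp ((y i : ℂ) * Complex.I)) :
    ψ (∑ i ∈ s, ε i • g i) = Complex.exp (((∑ i ∈ s, (ε i : ℝ) * y i : ℝ) : ℂ) * Complex.I) := by
  classical
  induction s using Finset.induction_on with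
  | empty => simp
  | insert a s ha ih =>
    rw [Finset.sum_insert ha, Finset.sum_insert ha, AddChar.map_add_eq_mul,
      ih (fun i hi => h i (Finset.mem_insert_of_mem hi)), AddChar.map_zsmul_eq_zpow,
      h a (Finset.mem_insert_self _ _), ← Complex.exp_int_mul, ← Complex.exp_add]
    congr 1
    push_cast
    ring

private theorem dsc_ag_core (D : ℕ) (χ : ℕ → AddChar G ℂ) (b : ℕ → G)
    (h : ∀ u < D, ∑ v ∈ range u, |Complex.arg (χ u (b v))| < Complex.arg (χ u (b u)))
    (ε : ℕ → ℤ) (hε : ∀ i < D, |ε i| ≤ 1) (h0 : ∑ i ∈ range D, ε i • b i = 0) : ∀ i < D, ε i = 0 := by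
  classical
  have hpi := Real.pi_pos
  by_contra hcon
  push Not at hcon
  obtain ⟨i₁, hi₁, hi₁'⟩ := hcon
  set T := (range D).filter (fun i => ε i ≠ 0) with hT
  have hTne : T.Nonempty := ⟨i₁, by rw [hT, Finset.mem_filter, Finset.mem_range]; exact ⟨hi₁, hi₁'⟩⟩
  obtain ⟨u, huT, humax⟩ := T.exists_max_image id hTne
  rw [hT, Finset.mem_filter, Finset.mem_range] at huT
  obtain ⟨huD, hu0⟩ := huT
  have hsplit : ∑ i ∈ range (u + 1), ε i • b i = 0 := by
    rw [← h0]
    refine Finset.sum_subset (by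
      intro i hi
      rw [Finset.mem_range] at hi ⊢
      omega) ?_
    intro i hi hi'
    have h1 : ε i = 0 := by
      by_contra h2
      have h3 := humax i (by rw [hT, Finset.mem_filter]; exact ⟨hi, h2⟩)
      apply hi'
      rw [Finset.mem_range]
      simp only [id] at h3
      omega
    rw [h1]
    simp
  have hval : ∀ i ∈ range (u + 1), χ u (b i) = Complex.exp ((Complex.arg (χ u (b i)) : ℂ) * Complex.I) := by
    intro i _
    have := Complex.norm_mul_exp_arg_mul_I (χ u (b i))
    rw [(χ u).norm_apply] at this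
    simpa using this.symm
  have h1 := dsc_ag_sum (χ u) (range (u + 1)) b ε (fun i => Complex.arg (χ u (b i))) hval
  rw [hsplit, AddChar.map_zero_eq_one] at h1
  obtain ⟨n, hn⟩ := Complex.exp_eq_one_iff.1 h1.symm
  have h2 : (∑ i ∈ range (u + 1), (ε i : ℝ) * Complex.arg (χ u (b i))) = n * (2 * Real.pi) := by
    have e1 : ((∑ i ∈ range (u + 1), (ε i : ℝ) * Complex.arg (χ u (b i)) : ℝ) : ℂ) * Complex.I =
        ((n * (2 * Real.pi) : ℝ) : ℂ) * Complex.I := by
      rw [hn]
      push_cast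
      ring
    exact_mod_cast mul_right_cancel₀ Complex.I_ne_zero e1
  rw [Finset.sum_range_succ] at h2
  have hlt := h u huD
  have hεr : ∀ i < D, |(ε i : ℝ)| ≤ 1 := fun i hi => by exact_mod_cast hε i hi
  have h3 : |∑ i ∈ range u, (ε i : ℝ) * Complex.arg (χ u (b i))| ≤ ∑ v ∈ range u, |Complex.arg (χ u (b v))| := by
    refine (Finset.abs_sum_le_sum_abs _ _).trans (Finset.sum_le_sum fun i hi => ?_)
    rw [abs_mul]
    have := hεr i ((Finset.mem_range.1 hi).trans huD)
    calc |(ε i : ℝ)| * |Complex.arg (χ u (b i))| ≤ 1 * |Complex.arg (χ u (b i))| :=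
          mul_le_mul_of_nonneg_right this (abs_nonneg _)
      _ = _ := one_mul _
  have h4 : |(ε u : ℝ) * Complex.arg (χ u (b u))| = |Complex.arg (χ u (b u))| := by
    have h3 : |ε u| = 1 := by
      have h4 := hε u huD
      have h5 : 0 < |ε u| := abs_pos.2 hu0
      omega
    have h4 : |(ε u : ℝ)| = 1 := by exact_mod_cast h3
    rw [abs_mul, h4, one_mul]
  have hpos : 0 < Complex.arg (χ u (b u)) :=
    lt_of_le_of_lt (Finset.sum_nonneg fun v _ => abs_nonneg _) hlt
  rw [abs_of_pos hpos] at h4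
  have h5 := Complex.arg_le_pi (χ u (b u))
  have h6 : |(n : ℝ) * (2 * Real.pi)| < 2 * Real.pi := by
    rw [← h2]
    refine (abs_add_le _ _).trans_lt ?_
    rw [h4]
    linarith
  have h7 : n = 0 := by
    rw [abs_mul, abs_of_pos (by positivity : (0 : ℝ) < 2 * Real.pi)] at h6
    have h8 : |(n : ℝ)| < 1 := by
      by_contra hc
      push Not at hc
      nlinarith
    have h9 : |n| < 1 := by exact_mod_cast h8
    exact abs_eq_zero.1 (by
      have := abs_nonneg n
      omega)
  rw [h7] at h2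
  have h8 : (ε u : ℝ) * Complex.arg (χ u (b u)) = -∑ i ∈ range u, (ε i : ℝ) * Complex.arg (χ u (b i)) := by
    push_cast at h2
    linarith
  rw [h8, abs_neg] at h4
  linarith

open Classical in
theorem dissoc_of_arg (D : ℕ) (χ : ℕ → AddChar G ℂ) (b : ℕ → G)
    (h : ∀ u < D, ∑ v ∈ range u, |Complex.arg (χ u (b v))| < Complex.arg (χ u (b u))) :
    Pool.Agent.Helper81.Dissoc.Dissociated ((range D).image b) ∧ ((range D).image b).card = D := by
  have hcore := dsc_ag_core D χ b h
  have hinj : ∀ i < D, ∀ j < D, b i = b j → i = j := by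
    intro i hi j hj hij
    by_contra hne
    have h1 := hcore (fun k => if k = i then 1 else if k = j then -1 else 0)
      (fun k _ => by split_ifs <;> simp) (by
        have e1 : ∀ k ∈ range D, (if k = i then (1 : ℤ) else if k = j then -1 else 0) • b k =
            (if k = i then b k else 0) + (if k = j then -b k else 0) := by
          intro k _
          by_cases h1 : k = i
          · have h2 : k ≠ j := fun h => hne (h1.symm.trans h)
            simp [h1, if_neg (h1 ▸ h2)]
          · by_cases h2 : k = j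
            · have h3 : ¬ j = i := fun h => hne h.symm
              simp [h2, h3]
            · simp [h1, h2]
        rw [Finset.sum_congr rfl e1, Finset.sum_add_distrib, Finset.sum_ite_eq' (range D) i,
          Finset.sum_ite_eq' (range D) j]
        simp [hi, hj, hij]) i hi
    simp at h1
  have hinj' : Set.InjOn b (range D : Finset ℕ) := fun i hi j hj h =>
    hinj i (Finset.mem_range.1 (Finset.mem_coe.1 hi)) j (Finset.mem_range.1 (Finset.mem_coe.1 hj)) h
  refine ⟨?_, by rw [Finset.card_image_of_injOn hinj', card_range]⟩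
  intro ε hε h0
  rw [Finset.sum_image hinj'] at h0
  have h1 := hcore (fun i => ε (b i))
    (fun i hi => by
      rcases hε (b i) (Finset.mem_image_of_mem _ (Finset.mem_range.2 hi)) with h | h | h <;>
        simp [h]) h0
  intro x hx
  obtain ⟨i, hi, rfl⟩ := Finset.mem_image.1 hx
  exact h1 i (Finset.mem_range.1 hi)

end DSC
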