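import Pool.Agent.DSC.Mo

/-! DSC / Mi: the probability to miss a window.

PROOF. `X Ψ = ∑_{s ∈ A} F n ζ Ψ s`, `m = |A|`, `Q = |G|^k`, `c = c n`. `Gd (32 N²) s` gives `Gd (2 n i) s`
(`2 n i ≤ 2 N ≤ 32 N²`). `∑ X = Q m c` (`mean`), `∑ X² ≤ Q c² (m² + 144 W m)` (`second`, `hW`), so
`∑ (X - m c)² ≤ Q c² 144 W m` and the number of `Ψ` with `X < m c / 2` is at most `576 Q W / m` (for such `Ψ`,
`(X - m c)² ≥ (m c/2)²`). For a missing `Ψ`, `F n ζ Ψ s ≤ ∑_{i ∈ S} [ρ i < ‖Ψ i s ζ i - 1‖] F n ζ Ψ s` for every `s ∈ A`, so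
`X Ψ ≤ Y Ψ := ∑_{s ∈ A} ∑_{i ∈ S} [...] F n ζ Ψ s`, and `∑_Ψ Y Ψ ≤ Q m c ∑_{i ∈ S} 8/(n i ρ i)²` (`leak1`); so the number of
missing `Ψ` with `X Ψ ≥ m c/2` is at most `Q ∑_{i ∈ S} 16/(n i ρ i)²` (Markov). -/

set_option autoImplicit false

open Finset

namespace DSC

variable {G : Type*} [AddCommGroup G] [Fintype G]

open Classical in
theorem miss {k : ℕ} (N : ℕ) (n : Fin k → ℕ) (hn : ∀ i, 1 ≤ n i) (hnN : ∀ i, n i ≤ N)
    (ζ : Fin k → ℂ) (hζ : ∀ i, ‖ζ i‖ = 1) (ρ : Fin k → ℝ) (S : Finset (Fin k)) (hρ : ∀ i ∈ S, 0 < ρ i)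
    (A : Finset G) (hne : A.Nonempty) (hA : ∀ s ∈ A, Gd (32 * N ^ 2) s) (W : ℝ)
    (hW : ∀ s ∈ A, ∑ t ∈ A, ∏ i, ((Rel (2 * n i - 2) s t).card : ℝ) ≤ A.card + 144 * W) :
    ((Finset.univ.filter fun Ψ : Fin k → AddChar G ℂ =>
        ∀ s ∈ A, ∃ i ∈ S, ρ i < ‖Ψ i s * ζ i - 1‖).card : ℝ) ≤
      (Fintype.card G : ℝ) ^ k * (576 * W / A.card + ∑ i ∈ S, 16 / ((n i : ℝ) * ρ i) ^ 2) := by
  obtain ⟨Q, hQ⟩ : ∃ Q : ℝ, Q = (Fintype.card G : ℝ) ^ k := ⟨_, rfl⟩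
  obtain ⟨m, hm⟩ : ∃ m : ℝ, m = (A.card : ℝ) := ⟨_, rfl⟩
  have hQ0 : 0 ≤ Q := by
    rw [hQ]
    positivity
  have hm0 : 0 < m := by
    rw [hm]
    exact_mod_cast hne.card_pos
  have hc0 : 0 < c n := c_pos n hn
  have hGd : ∀ s ∈ A, ∀ i, Gd (2 * n i) s := by
    intro s hs i j h1 h2
    have h3 := hnN i
    have h4 := hn i
    refine hA s hs j h1 (h2.trans ?_)
    nlinarith
  obtain ⟨X, hX⟩ : ∃ X : (Fin k → AddChar G ℂ) → ℝ, ∀ Ψ, X Ψ = ∑ s ∈ A, F n ζ Ψ s :=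
    ⟨fun Ψ => ∑ s ∈ A, F n ζ Ψ s, fun _ => rfl⟩
  have hcard : ((Finset.univ : Finset (Fin k → AddChar G ℂ)).card : ℝ) = Q := by
    rw [Finset.card_univ, Fintype.card_fun, AddChar.card_eq, Fintype.card_fin, hQ]
    push_cast
    rfl
  rw [← hQ, ← hm]
  rw [← hm] at hW
  have S1 : ∑ Ψ, X Ψ = m * (Q * c n) := by
    rw [Finset.sum_congr rfl (fun Ψ _ => hX Ψ), Finset.sum_comm,
      Finset.sum_congr rfl (fun s hs => mean n ζ hζ s (hGd s hs)), Finset.sum_const, nsmul_eq_mul,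
      ← hQ, ← hm]
  have S2 : ∑ Ψ, X Ψ ^ 2 ≤ m * (Q * c n ^ 2 * (m + 144 * W)) := by
    have e1 : ∀ Ψ, X Ψ ^ 2 = ∑ s ∈ A, ∑ t ∈ A, F n ζ Ψ s * F n ζ Ψ t := by
      intro Ψ
      rw [hX, sq, Finset.sum_mul_sum]
    rw [Finset.sum_congr rfl (fun Ψ _ => e1 Ψ), Finset.sum_comm]
    have e2 : ∀ s ∈ A, ∑ Ψ : Fin k → AddChar G ℂ, ∑ t ∈ A, F n ζ Ψ s * F n ζ Ψ t ≤
        Q * c n ^ 2 * (m + 144 * W) := by
      intro s hs
      rw [Finset.sum_comm]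
      calc ∑ t ∈ A, ∑ Ψ : Fin k → AddChar G ℂ, F n ζ Ψ s * F n ζ Ψ t ≤
            ∑ t ∈ A, Q * c n ^ 2 * ∏ i, ((Rel (2 * n i - 2) s t).card : ℝ) := by
            refine Finset.sum_le_sum fun t _ => ?_
            rw [hQ]
            exact second n ζ hζ s t
        _ = Q * c n ^ 2 * ∑ t ∈ A, ∏ i, ((Rel (2 * n i - 2) s t).card : ℝ) := by
            rw [Finset.mul_sum]
        _ ≤ Q * c n ^ 2 * (m + 144 * W) := by
            refine mul_le_mul_of_nonneg_left (hW s hs) (by positivity)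
    calc _ ≤ ∑ s ∈ A, Q * c n ^ 2 * (m + 144 * W) := Finset.sum_le_sum e2
      _ = _ := by rw [Finset.sum_const, nsmul_eq_mul, ← hm]
  have S3 : ∑ Ψ, (X Ψ - m * c n) ^ 2 ≤ Q * c n ^ 2 * (144 * W) * m := by
    have e1 : ∑ Ψ, (X Ψ - m * c n) ^ 2 =
        ∑ Ψ, X Ψ ^ 2 - 2 * (m * c n) * ∑ Ψ, X Ψ + Q * (m * c n) ^ 2 := by
      have : ∀ Ψ, (X Ψ - m * c n) ^ 2 = X Ψ ^ 2 - 2 * (m * c n) * X Ψ + (m * c n) ^ 2 :=
        fun Ψ => by ring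
      rw [Finset.sum_congr rfl (fun Ψ _ => this Ψ), Finset.sum_add_distrib, Finset.sum_sub_distrib,
        ← Finset.mul_sum, Finset.sum_const, nsmul_eq_mul, hcard]
    rw [e1, S1]
    nlinarith [S2]
  -- the two kinds of bad tuples
  obtain ⟨B1, hB1⟩ : ∃ B1, B1 = Finset.univ.filter fun Ψ : Fin k → AddChar G ℂ =>
    X Ψ < m * c n / 2 := ⟨_, rfl⟩
  obtain ⟨B2, hB2⟩ : ∃ B2, B2 = Finset.univ.filter fun Ψ : Fin k → AddChar G ℂ =>
    (∀ s ∈ A, ∃ i ∈ S, ρ i < ‖Ψ i s * ζ i - 1‖) ∧ m * c n / 2 ≤ X Ψ := ⟨_, rfl⟩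
  have S4 : (B1.card : ℝ) ≤ Q * (576 * W / m) := by
    have h1 : (B1.card : ℝ) * (m * c n / 2) ^ 2 ≤ ∑ Ψ, (X Ψ - m * c n) ^ 2 := by
      calc (B1.card : ℝ) * (m * c n / 2) ^ 2 = ∑ Ψ ∈ B1, (m * c n / 2) ^ 2 := by
            rw [Finset.sum_const, nsmul_eq_mul]
        _ ≤ ∑ Ψ ∈ B1, (X Ψ - m * c n) ^ 2 := by
            refine Finset.sum_le_sum fun Ψ hΨ => ?_
            rw [hB1] at hΨ
            have h1 : X Ψ < m * c n / 2 := (Finset.mem_filter.1 hΨ).2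
            have h2 : 0 ≤ m * c n := by positivity
            nlinarith
        _ ≤ ∑ Ψ, (X Ψ - m * c n) ^ 2 :=
            Finset.sum_le_sum_of_subset_of_nonneg (Finset.subset_univ _) fun _ _ _ => sq_nonneg _
    have h2 := h1.trans S3
    have h3 : (m * c n ^ 2 / 4) * (B1.card * m) ≤ (m * c n ^ 2 / 4) * (Q * (576 * W)) := by
      have e1 : (m * c n ^ 2 / 4) * (B1.card * m) = (B1.card : ℝ) * (m * c n / 2) ^ 2 := by ring
      have e2 : (m * c n ^ 2 / 4) * (Q * (576 * W)) = Q * c n ^ 2 * (144 * W) * m := by ring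
      rw [e1, e2]
      exact h2
    have h4 : (B1.card : ℝ) * m ≤ Q * (576 * W) := le_of_mul_le_mul_left h3 (by positivity)
    rw [← mul_div_assoc, le_div_iff₀ hm0]
    exact h4
  have S5 : (B2.card : ℝ) ≤ Q * ∑ i ∈ S, 16 / ((n i : ℝ) * ρ i) ^ 2 := by
    have h1 : ∀ Ψ ∈ B2, m * c n / 2 ≤
        ∑ i ∈ S, ∑ s ∈ A, if ρ i < ‖Ψ i s * ζ i - 1‖ then F n ζ Ψ s else 0 := by
      intro Ψ hΨ
      rw [hB2] at hΨ
      obtain ⟨h2, h3⟩ := (Finset.mem_filter.1 hΨ).2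
      refine h3.trans ?_
      rw [hX, Finset.sum_comm]
      refine Finset.sum_le_sum fun s hs => ?_
      obtain ⟨i, hi, hi'⟩ := h2 s hs
      calc F n ζ Ψ s = if ρ i < ‖Ψ i s * ζ i - 1‖ then F n ζ Ψ s else 0 := by rw [if_pos hi']
        _ ≤ ∑ i ∈ S, if ρ i < ‖Ψ i s * ζ i - 1‖ then F n ζ Ψ s else 0 := by
            refine Finset.single_le_sum
              (f := fun i => if ρ i < ‖Ψ i s * ζ i - 1‖ then F n ζ Ψ s else 0) (fun j _ => ?_) hi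
            show 0 ≤ if ρ j < ‖Ψ j s * ζ j - 1‖ then F n ζ Ψ s else 0
            split_ifs
            · exact F_nonneg n ζ Ψ s
            · exact le_refl _
    have h4 : (B2.card : ℝ) * (m * c n / 2) ≤
        ∑ Ψ : Fin k → AddChar G ℂ, ∑ i ∈ S, ∑ s ∈ A,
          if ρ i < ‖Ψ i s * ζ i - 1‖ then F n ζ Ψ s else 0 := by
      calc (B2.card : ℝ) * (m * c n / 2) = ∑ Ψ ∈ B2, (m * c n / 2) := by
            rw [Finset.sum_const, nsmul_eq_mul]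
        _ ≤ ∑ Ψ ∈ B2, ∑ i ∈ S, ∑ s ∈ A,
            if ρ i < ‖Ψ i s * ζ i - 1‖ then F n ζ Ψ s else 0 := Finset.sum_le_sum h1
        _ ≤ _ := by
            refine Finset.sum_le_sum_of_subset_of_nonneg (Finset.subset_univ _) fun Ψ _ _ => ?_
            refine Finset.sum_nonneg fun i _ => Finset.sum_nonneg fun s _ => ?_
            split_ifs
            · exact F_nonneg n ζ Ψ s
            · exact le_refl _
    have h5 : ∑ Ψ : Fin k → AddChar G ℂ, ∑ i ∈ S, ∑ s ∈ A,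
          (if ρ i < ‖Ψ i s * ζ i - 1‖ then F n ζ Ψ s else 0) ≤
        ∑ i ∈ S, m * (Q * c n * (8 / ((n i : ℝ) * ρ i) ^ 2)) := by
      rw [Finset.sum_comm]
      refine Finset.sum_le_sum fun i hi => ?_
      rw [Finset.sum_comm]
      calc ∑ s ∈ A, ∑ Ψ : Fin k → AddChar G ℂ,
            (if ρ i < ‖Ψ i s * ζ i - 1‖ then F n ζ Ψ s else 0) ≤
            ∑ s ∈ A, Q * c n * (8 / ((n i : ℝ) * ρ i) ^ 2) := by
            refine Finset.sum_le_sum fun s hs => ?_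
            rw [← Finset.sum_filter, hQ]
            exact leak1 n hn ζ hζ s (hGd s hs) i (ρ i) (hρ i hi)
        _ = _ := by rw [Finset.sum_const, nsmul_eq_mul, ← hm]
    have h6 := h4.trans h5
    have h7 : (m * c n / 2) * (B2.card : ℝ) ≤
        (m * c n / 2) * (Q * ∑ i ∈ S, 16 / ((n i : ℝ) * ρ i) ^ 2) := by
      have e1 : (m * c n / 2) * (Q * ∑ i ∈ S, 16 / ((n i : ℝ) * ρ i) ^ 2) =
          ∑ i ∈ S, m * (Q * c n * (8 / ((n i : ℝ) * ρ i) ^ 2)) := by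
        rw [Finset.mul_sum, Finset.mul_sum]
        refine Finset.sum_congr rfl fun i _ => ?_
        ring
      rw [e1, mul_comm]
      exact h6
    exact le_of_mul_le_mul_left h7 (by positivity)
  have S6 : ((Finset.univ.filter fun Ψ : Fin k → AddChar G ℂ =>
        ∀ s ∈ A, ∃ i ∈ S, ρ i < ‖Ψ i s * ζ i - 1‖).card : ℝ) ≤ (B1.card : ℝ) + B2.card := by
    have h1 : (Finset.univ.filter fun Ψ : Fin k → AddChar G ℂ =>
        ∀ s ∈ A, ∃ i ∈ S, ρ i < ‖Ψ i s * ζ i - 1‖) ⊆ B1 ∪ B2 := by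
      intro Ψ hΨ
      have h2 := (Finset.mem_filter.1 hΨ).2
      rw [Finset.mem_union, hB1, hB2, Finset.mem_filter, Finset.mem_filter]
      rcases lt_or_ge (X Ψ) (m * c n / 2) with h3 | h3
      · exact Or.inl ⟨Finset.mem_univ _, h3⟩
      · exact Or.inr ⟨Finset.mem_univ _, h2, h3⟩
    have h2 := (Finset.card_le_card h1).trans (Finset.card_union_le B1 B2)
    exact_mod_cast h2
  rw [mul_add]
  linarith

end DSC
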