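import Mathlib

/-! DSC / Si: superincreasing numbers.

PROOF. Put `i = u / l`, `p = u % l`, `γ v = 2 - 1/(v+1)`, `c = π / 2^l`. The `v < u` with `v / l = i` are `i l + j`, `j < p`,
(`v % l = j`), and contribute at most `∑_{j < p} c 2^j γ (v+1) ≤ c γ u ∑_{j<p} 2^j = c γ u (2^p - 1)` (`γ` is increasing and
`v + 1 ≤ u`; note `2 - 1/(v+2) = γ (v+1)`). The `v` with `v / l < i` are the `v < i l` and contribute at most
`∑_{v < i l} c / ((v+1)(v+2)) = c (1 - 1/(i l+1)) < c ≤ c γ u`. (The bounds for `v / l < i` and `v / l = i`: all `v < u` are of one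
of the two kinds.) Total `< c γ u 2^p ≤ f u`. -/

set_option autoImplicit false

open Finset

namespace DSC

theorem superinc (l : ℕ) (hl : 1 ≤ l) (u : ℕ) (f : ℕ → ℝ)
    (h1 : ∀ v, v < u → v / l < u / l → |f v| ≤ Real.pi / (2 ^ l * (((v : ℝ) + 1) * ((v : ℝ) + 2))))
    (h2 : ∀ v, v < u → v / l = u / l → |f v| ≤ Real.pi * 2 ^ (v % l) / 2 ^ l * (2 - 1 / ((v : ℝ) + 2)))
    (h3 : Real.pi * 2 ^ (u % l) / 2 ^ l * (2 - 1 / ((u : ℝ) + 1)) ≤ f u) :
    ∑ v ∈ range u, |f v| < f u := by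
  obtain ⟨c, hc⟩ : ∃ c : ℝ, c = Real.pi / 2 ^ l := ⟨_, rfl⟩
  have hc0 : 0 < c := by
    rw [hc]
    positivity
  obtain ⟨i, hi⟩ : ∃ i, i = u / l := ⟨_, rfl⟩
  obtain ⟨p, hp⟩ : ∃ p, p = u % l := ⟨_, rfl⟩
  have hu : l * i + p = u := by
    rw [hi, hp]
    exact Nat.div_add_mod u l
  have hpl : p < l := by
    rw [hp]
    exact Nat.mod_lt _ hl
  have tele : ∀ n : ℕ, ∑ v ∈ range n, c / (((v : ℝ) + 1) * ((v : ℝ) + 2)) =
      c * (1 - 1 / ((n : ℝ) + 1)) := by
    intro n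
    induction n with
    | zero => simp
    | succ n ih =>
      rw [Finset.sum_range_succ, ih]
      push_cast
      have e1 : ((n : ℝ) + 1) ≠ 0 := by positivity
      have e2 : ((n : ℝ) + 2) ≠ 0 := by positivity
      have e3 : ((n : ℝ) + 1 + 1) ≠ 0 := by positivity
      field_simp
      ring
  have s1 : ∑ v ∈ range (l * i), |f v| < c := by
    refine lt_of_le_of_lt (Finset.sum_le_sum fun v hv => ?_) (lt_of_eq_of_lt (tele (l * i)) ?_)
    · rw [Finset.mem_range] at hv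
      have hv1 : v / l < u / l := by
        rw [← hi]
        exact Nat.div_lt_of_lt_mul hv
      refine (h1 v (by omega) hv1).trans (le_of_eq ?_)
      rw [hc, div_div]
    · have h5 : 0 < 1 / (((l * i : ℕ) : ℝ) + 1) := by positivity
      nlinarith
  have s2 : ∑ j ∈ range p, |f (l * i + j)| ≤ c * (2 - 1 / ((u : ℝ) + 1)) * (2 ^ p - 1) := by
    have geo : ∑ j ∈ range p, (2 : ℝ) ^ j = 2 ^ p - 1 := by
      have := geom_sum_eq (show (2 : ℝ) ≠ 1 by norm_num) p
      rw [this]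
      norm_num
    rw [← geo, Finset.mul_sum]
    refine Finset.sum_le_sum fun j hj => ?_
    rw [Finset.mem_range] at hj
    have hj1 : (l * i + j) / l = i := by
      rw [Nat.mul_add_div (by omega), Nat.div_eq_of_lt (by omega), add_zero]
    have hj2 : (l * i + j) % l = j := by
      rw [Nat.mul_add_mod, Nat.mod_eq_of_lt (by omega)]
    have h5 := h2 (l * i + j) (by omega) (by rw [hj1, hi])
    rw [hj2] at h5
    refine h5.trans ?_
    have h6 : 1 / ((u : ℝ) + 1) ≤ 1 / (((l * i + j : ℕ) : ℝ) + 2) := by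
      apply one_div_le_one_div_of_le (by positivity)
      have h7 : l * i + j + 2 ≤ u + 1 := by omega
      exact_mod_cast h7
    have h8 : Real.pi * 2 ^ j / 2 ^ l = c * 2 ^ j := by
      rw [hc]
      ring
    rw [h8]
    have h9 : 0 < c * 2 ^ j := by positivity
    nlinarith
  have h3' : c * 2 ^ p * (2 - 1 / ((u : ℝ) + 1)) ≤ f u := by
    refine le_trans (le_of_eq ?_) h3
    rw [hc, hp]
    ring
  have hg : 1 ≤ 2 - 1 / ((u : ℝ) + 1) := by
    have h5 : 1 / ((u : ℝ) + 1) ≤ 1 := by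
      rw [div_le_one (by positivity)]
      have : (0 : ℝ) ≤ u := Nat.cast_nonneg u
      linarith
    linarith
  have hs : ∑ v ∈ range u, |f v| = ∑ v ∈ range (l * i), |f v| + ∑ j ∈ range p, |f (l * i + j)| := by
    rw [← hu, Finset.sum_range_add]
  rw [hs]
  have h10 : c ≤ c * (2 - 1 / ((u : ℝ) + 1)) := by nlinarith
  nlinarith

end DSC
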