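import Pool.Agent.DSC.Defs

/-! DSC / Wb: numerical bounds.

PROOF. `w_le`: `H ≤ 2B`, so `1 + 4 (B-1)/H ≤ 6 B/H`; `1 + 4 (M-1)/H ≤ 4 M`; the factors with `i < j` are `1`. There are
`p = k - 1 - j` indices `i > j`. So the left side is at most `H^q (6B/H)^p 4M`; if `p ≤ q` it is
`(6B)^p H^(q-p) 4M ≤ (6B)^p (2B)^(q-p) 4M ≤ 4M (6B)^q`; if `p > q` it is `(6B)^p 4M / H^(p-q) ≤ 4M (6B)^p`.
(`Fin.prod_univ_eq_prod_range`, then split the range.)
`num2`: `E = E k u`, `a = (u+1)(u+2)`, `j = u / l`, `v = u % l`, `p = k - 1 - j` (`j < k`), `P = max p q ≤ k - 1`. The left side is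
`9216 a 6^P E^(P+1) 2^(l - v + l P) ≤ 9216 a (6E)^k 2^(l (P+1) - v)`; if `P = p`, `l (p+1) - v = l (k - j) - v = k l - u`;
if `P = q > p` then `l (q+1) - v ≤ l (q+1) ≤ k l / 2 ≤ k l - u/2` since `u < k l`. So in both cases it is at most
`9216 a (6E)^k 2^(k l - u/2)` (`u/2` rounded down). `6 E = 48 k a²`, `a ≤ (u+2)²`, so `a (6E)^k ≤ (48k)^k (u+2)^(4k+2) ≤
(48 k)^k (u+2)^(6k)`, and `(u+2)^(6k) ≤ (12k)^(6k) 2^((u+2)/2)` (`x ≤ 2^x` for the real number `x = (u+2)/(12k)`), which is at most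
`(12k)^(6k) 4 * 2^(u/2)` (`u/2` rounded down). As `9216 * 4 ≤ 2^16` the claim follows.
`num1`: `R = r+1`, `k = 8R`, `D = k l`; `32 (2^l E k D)² = 2^5 4^l 2^6 k² ((D+1)(D+2))^4 ≤ 2^11 k² 4^l (D+2)^8`,
`D + 2 ≤ k (l+2)`, `(l+2)² ≤ 9 * 2^l`, so this is `≤ 2^11 k^10 9^4 2^(6 l) ≤ (48k)^10 * 2^(8 l)`, and the `R`-th power is at most
`(48k)^(10 R) 2^(8 R l) ≤ (48k)^(56 R) 2^(8 R l)`. -/

set_option autoImplicit false

open Finset

namespace DSC

private theorem wb_pow (B H : ℝ) (p q : ℕ) (hB : 1 ≤ B) (hH : 1 ≤ H) (hHB : H ≤ 2 * B) :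
    H ^ q * (6 * B / H) ^ p ≤ (6 * B) ^ (max p q) := by
  have hH0 : (0 : ℝ) < H := by linarith
  have h6 : (1 : ℝ) ≤ 6 * B := by linarith
  rcases le_total p q with h | h
  · rw [max_eq_right h, div_pow]
    obtain ⟨m, rfl⟩ := Nat.exists_eq_add_of_le h
    have e : H ^ (p + m) * ((6 * B) ^ p / H ^ p) = (6 * B) ^ p * H ^ m := by
      rw [pow_add]
      field_simp
    rw [e, pow_add]
    have h2 : H ^ m ≤ (6 * B) ^ m := pow_le_pow_left₀ hH0.le (by linarith) m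
    exact mul_le_mul_of_nonneg_left h2 (by positivity)
  · rw [max_eq_left h, div_pow]
    obtain ⟨m, rfl⟩ := Nat.exists_eq_add_of_le h
    have e : H ^ q * ((6 * B) ^ (q + m) / H ^ (q + m)) = (6 * B) ^ (q + m) / H ^ m := by
      rw [pow_add H]
      field_simp
    rw [e]
    exact div_le_self (by positivity) (one_le_pow₀ hH)

theorem w_le (k q B M j : ℕ) (hj : j < k) (hB : 1 ≤ B) (hM : 1 ≤ M) (H : ℕ) (hH : 1 ≤ H) (hHB : H ≤ 2 * B) :
    (H : ℝ) ^ q * ∏ i : Fin k,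
      (1 + 4 * (((if (i : ℕ) < j then 1 else if (i : ℕ) = j then M else B : ℕ) : ℝ) - 1) / H) ≤
      4 * M * (6 * B) ^ (max (k - 1 - j) q) := by
  obtain ⟨p, rfl⟩ : ∃ p, k = (j + 1) + p := ⟨k - (j + 1), by omega⟩
  have hp : j + 1 + p - 1 - j = p := by omega
  rw [hp]
  have hB' : (1 : ℝ) ≤ B := by exact_mod_cast hB
  have hM' : (1 : ℝ) ≤ M := by exact_mod_cast hM
  have hH' : (1 : ℝ) ≤ H := by exact_mod_cast hH
  have hHB' : (H : ℝ) ≤ 2 * B := by exact_mod_cast hHB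
  have hH0 : (0 : ℝ) < H := by linarith
  rw [Fin.prod_univ_eq_prod_range (fun i : ℕ =>
    (1 + 4 * (((if i < j then 1 else if i = j then M else B : ℕ) : ℝ) - 1) / (H : ℝ))) (j + 1 + p),
    Finset.prod_range_add, Finset.prod_range_succ]
  have h1 : ∏ i ∈ range j,
      (1 + 4 * (((if i < j then 1 else if i = j then M else B : ℕ) : ℝ) - 1) / (H : ℝ)) = 1 := by
    refine Finset.prod_eq_one fun i hi => ?_
    rw [if_pos (Finset.mem_range.1 hi)]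
    simp
  have h2 : ∏ i ∈ range p, (1 + 4 * (((if j + 1 + i < j then 1 else if j + 1 + i = j then M
      else B : ℕ) : ℝ) - 1) / (H : ℝ)) = (1 + 4 * ((B : ℝ) - 1) / H) ^ p := by
    rw [← Finset.card_range p, ← Finset.prod_const, Finset.card_range]
    refine Finset.prod_congr rfl fun i _ => ?_
    rw [if_neg (by omega), if_neg (by omega)]
  rw [h1, h2, if_neg (lt_irrefl j), if_pos rfl, one_mul]
  have h3 : 1 + 4 * ((M : ℝ) - 1) / H ≤ 4 * M := by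
    have : 4 * ((M : ℝ) - 1) / H ≤ 4 * ((M : ℝ) - 1) :=
      div_le_self (by linarith) hH'
    linarith
  have h4 : 1 + 4 * ((B : ℝ) - 1) / H ≤ 6 * B / H := by
    rw [le_div_iff₀ hH0, add_mul, div_mul_cancel₀ _ hH0.ne']
    linarith
  have h5 : 0 ≤ 1 + 4 * ((B : ℝ) - 1) / H := by
    have : 0 ≤ 4 * ((B : ℝ) - 1) / H := div_nonneg (by linarith) hH0.le
    linarith
  have h6 : (1 + 4 * ((B : ℝ) - 1) / H) ^ p ≤ (6 * B / H) ^ p := pow_le_pow_left₀ h5 h4 p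
  have h7 := wb_pow B H p q hB' hH' hHB'
  calc (H : ℝ) ^ q * ((1 + 4 * ((M : ℝ) - 1) / H) * (1 + 4 * ((B : ℝ) - 1) / H) ^ p)
      ≤ (H : ℝ) ^ q * (4 * M * (6 * B / H) ^ p) := by
        refine mul_le_mul_of_nonneg_left ?_ (by positivity)
        exact mul_le_mul h3 h6 (by positivity) (by positivity)
    _ = 4 * M * ((H : ℝ) ^ q * (6 * B / H) ^ p) := by ring
    _ ≤ 4 * M * (6 * B) ^ (max p q) := mul_le_mul_of_nonneg_left h7 (by positivity)

private theorem wb_pow2 (k u : ℕ) (hk : 1 ≤ k) :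
    (u + 2) ^ (6 * k) ≤ (12 * k) ^ (6 * k) * (2 * 2 ^ (u / 2)) := by
  have hk12 : 0 < 12 * k := by omega
  have h1 : u + 2 < 12 * k * ((u + 2) / (12 * k) + 1) := by
    have := Nat.lt_mul_div_succ (u + 2) hk12
    exact this
  have h2 : (u + 2) / (12 * k) + 1 ≤ 2 ^ ((u + 2) / (12 * k)) := Nat.lt_two_pow_self
  have h3 : u + 2 ≤ 12 * k * 2 ^ ((u + 2) / (12 * k)) :=
    h1.le.trans (Nat.mul_le_mul_left _ h2)
  have h4 : 12 * k * ((u + 2) / (12 * k)) ≤ u + 2 := Nat.mul_div_le _ _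
  have h5 : (u + 2) / (12 * k) * (6 * k) ≤ u / 2 + 1 := by
    have e : (u + 2) / (12 * k) * (6 * k) * 2 = 12 * k * ((u + 2) / (12 * k)) := by ring
    omega
  calc (u + 2) ^ (6 * k) ≤ (12 * k * 2 ^ ((u + 2) / (12 * k))) ^ (6 * k) :=
        Nat.pow_le_pow_left h3 _
    _ = (12 * k) ^ (6 * k) * 2 ^ ((u + 2) / (12 * k) * (6 * k)) := by
        rw [mul_pow, ← pow_mul]
    _ ≤ (12 * k) ^ (6 * k) * 2 ^ (u / 2 + 1) :=
        Nat.mul_le_mul_left _ (Nat.pow_le_pow_right (by norm_num) h5)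
    _ = (12 * k) ^ (6 * k) * (2 * 2 ^ (u / 2)) := by rw [pow_succ]; ring

private theorem wb_exp (k l q u : ℕ) (hk : 2 * (q + 1) ≤ k) (hl : 1 ≤ l) (hu : u < k * l) :
    l - u % l + l * (max (k - 1 - u / l) q) + u / 2 ≤ k * l := by
  have hj : u / l < k := Nat.div_lt_of_lt_mul (by rw [mul_comm]; exact hu)
  have hv : u % l < l := Nat.mod_lt _ (by omega)
  have hd : l * (u / l) + u % l = u := Nat.div_add_mod u l
  rcases le_total (k - 1 - u / l) q with h | h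
  · rw [max_eq_right h]
    have h1 : l * (2 * (q + 1)) ≤ l * k := Nat.mul_le_mul_left _ hk
    have h2 : l * (2 * (q + 1)) = 2 * (l * q) + 2 * l := by ring
    have h3 : l * k = k * l := mul_comm _ _
    omega
  · rw [max_eq_left h]
    obtain ⟨p, hp⟩ : ∃ p, k = u / l + 1 + p := ⟨k - (u / l + 1), by omega⟩
    have hp1 : k - 1 - u / l = p := by omega
    rw [hp1]
    have h2 : k * l = l * (u / l) + l + l * p := by
      calc k * l = (u / l + 1 + p) * l := by rw [← hp]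
        _ = _ := by ring
    omega

theorem num2 (k l q u : ℕ) (hk : 2 * (q + 1) ≤ k) (hl : 1 ≤ l) (hu : u < k * l) :
    2304 * ((u + 1) * (u + 2)) *
      (4 * (2 ^ (l - u % l) * E k u) * (6 * (2 ^ l * E k u)) ^ (max (k - 1 - u / l) q)) ≤
      2 ^ (k * l) * (2 ^ 16 * (48 * k) ^ (7 * k)) := by
  have hk1 : 1 ≤ k := by omega
  have hexp := wb_exp k l q u hk hl hu
  have hPk : max (k - 1 - u / l) q + 1 ≤ k := by
    have h0 : max (k - 1 - u / l) q ≤ k - 1 := max_le (Nat.sub_le _ _) (by omega)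
    omega
  generalize max (k - 1 - u / l) q = P at hexp hPk ⊢
  generalize hV : l - u % l = V at hexp ⊢
  have hE : 6 * E k u = 48 * k * ((u + 1) * (u + 2)) ^ 2 := by unfold E; ring
  have hE1 : 1 ≤ E k u := by
    unfold E
    have : 0 < 8 * k * ((u + 1) * (u + 2)) ^ 2 := by positivity
    exact this
  have h6E : 1 ≤ 6 * E k u := by omega
  have e1 : 2304 * ((u + 1) * (u + 2)) *
      (4 * (2 ^ V * E k u) * (6 * (2 ^ l * E k u)) ^ P) =
      9216 * ((u + 1) * (u + 2)) * (E k u * (6 * E k u) ^ P) * 2 ^ (V + l * P) := by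
    have : 6 * (2 ^ l * E k u) = 2 ^ l * (6 * E k u) := by ring
    rw [this, mul_pow, ← pow_mul, pow_add]
    ring
  rw [e1]
  have h1 : E k u * (6 * E k u) ^ P ≤ (6 * E k u) ^ k := by
    calc E k u * (6 * E k u) ^ P ≤ (6 * E k u) * (6 * E k u) ^ P :=
          Nat.mul_le_mul_right _ (by omega)
      _ = (6 * E k u) ^ (P + 1) := by rw [pow_succ]; ring
      _ ≤ (6 * E k u) ^ k := Nat.pow_le_pow_right h6E hPk
  have h2 : (u + 1) * (u + 2) ≤ (u + 2) ^ 2 := by nlinarith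
  have h3 : ((u + 1) * (u + 2)) * (6 * E k u) ^ k ≤
      (48 * k) ^ k * ((12 * k) ^ (6 * k) * (2 * 2 ^ (u / 2))) := by
    calc ((u + 1) * (u + 2)) * (6 * E k u) ^ k
        = (48 * k) ^ k * ((u + 1) * (u + 2)) ^ (2 * k + 1) := by
          rw [hE, mul_pow, ← pow_mul, pow_succ]
          ring
      _ ≤ (48 * k) ^ k * ((u + 2) ^ 2) ^ (2 * k + 1) :=
          Nat.mul_le_mul_left _ (Nat.pow_le_pow_left h2 _)
      _ = (48 * k) ^ k * (u + 2) ^ (2 * (2 * k + 1)) := by rw [← pow_mul]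
      _ ≤ (48 * k) ^ k * (u + 2) ^ (6 * k) :=
          Nat.mul_le_mul_left _ (Nat.pow_le_pow_right (by omega) (by omega))
      _ ≤ _ := Nat.mul_le_mul_left _ (wb_pow2 k u hk1)
  have h4 : (48 * k) ^ k * (12 * k) ^ (6 * k) ≤ (48 * k) ^ (7 * k) := by
    calc (48 * k) ^ k * (12 * k) ^ (6 * k) ≤ (48 * k) ^ k * (48 * k) ^ (6 * k) :=
          Nat.mul_le_mul_left _ (Nat.pow_le_pow_left (by omega) _)
      _ = (48 * k) ^ (7 * k) := by rw [← pow_add]; congr 1; ring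
  calc 9216 * ((u + 1) * (u + 2)) * (E k u * (6 * E k u) ^ P) * 2 ^ (V + l * P)
      ≤ 9216 * ((u + 1) * (u + 2)) * (6 * E k u) ^ k * 2 ^ (V + l * P) :=
        Nat.mul_le_mul_right _ (Nat.mul_le_mul_left _ h1)
    _ = 9216 * (((u + 1) * (u + 2)) * (6 * E k u) ^ k) * 2 ^ (V + l * P) := by ring
    _ ≤ 9216 * ((48 * k) ^ k * ((12 * k) ^ (6 * k) * (2 * 2 ^ (u / 2)))) * 2 ^ (V + l * P) :=
        Nat.mul_le_mul_right _ (Nat.mul_le_mul_left _ h3)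
    _ = 18432 * ((48 * k) ^ k * (12 * k) ^ (6 * k)) * 2 ^ (V + l * P + u / 2) := by
        rw [pow_add 2 (V + l * P)]; ring
    _ ≤ 18432 * (48 * k) ^ (7 * k) * 2 ^ (k * l) :=
        Nat.mul_le_mul (Nat.mul_le_mul_left _ h4) (Nat.pow_le_pow_right (by norm_num) hexp)
    _ ≤ 2 ^ 16 * (48 * k) ^ (7 * k) * 2 ^ (k * l) :=
        Nat.mul_le_mul_right _ (Nat.mul_le_mul_right _ (by norm_num))
    _ = 2 ^ (k * l) * (2 ^ 16 * (48 * k) ^ (7 * k)) := by ring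

private theorem wb_sq (l : ℕ) : (l + 2) ^ 2 ≤ 9 * 2 ^ l := by
  induction l with
  | zero => norm_num
  | succ n ih =>
    rw [pow_succ 2 n]
    rcases n with _ | n
    · norm_num
    · have h : (n + 1 + 1 + 2) ^ 2 ≤ 2 * (n + 1 + 2) ^ 2 := by ring_nf; omega
      calc (n + 1 + 1 + 2) ^ 2 ≤ 2 * (n + 1 + 2) ^ 2 := h
        _ ≤ 2 * (9 * 2 ^ (n + 1)) := Nat.mul_le_mul_left _ ih
        _ = 9 * (2 ^ (n + 1) * 2) := by ring

theorem num1 (r l : ℕ) :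
    (32 * (2 ^ l * E (8 * (r + 1)) (8 * (r + 1) * l)) ^ 2) ^ (r + 1) ≤
      2 ^ (8 * (r + 1) * l) * (2 ^ 16 * (48 * (8 * (r + 1))) ^ (7 * (8 * (r + 1)))) := by
  have hk : 8 * (r + 1) = 8 * (r + 1) := rfl
  generalize hK : 8 * (r + 1) = k
  have hk1 : 1 ≤ k := by omega
  have hD : k * l + 2 ≤ k * (l + 2) := by nlinarith
  have h1 : 32 * (2 ^ l * E k (k * l)) ^ 2 ≤ (48 * k) ^ 10 * 2 ^ (8 * l) := by
    have e1 : 32 * (2 ^ l * E k (k * l)) ^ 2 =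
        2048 * k ^ 2 * (2 ^ l) ^ 2 * ((k * l + 1) * (k * l + 2)) ^ 4 := by unfold E; ring
    rw [e1]
    have h2 : (k * l + 1) * (k * l + 2) ≤ (k * (l + 2)) ^ 2 := by
      calc (k * l + 1) * (k * l + 2) ≤ (k * (l + 2)) * (k * (l + 2)) :=
            Nat.mul_le_mul (by omega) hD
        _ = _ := by ring
    calc 2048 * k ^ 2 * (2 ^ l) ^ 2 * ((k * l + 1) * (k * l + 2)) ^ 4
        ≤ 2048 * k ^ 2 * (2 ^ l) ^ 2 * ((k * (l + 2)) ^ 2) ^ 4 :=
          Nat.mul_le_mul_left _ (Nat.pow_le_pow_left h2 _)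
      _ = 2048 * k ^ 10 * (2 ^ l) ^ 2 * ((l + 2) ^ 2) ^ 4 := by ring
      _ ≤ 2048 * k ^ 10 * (2 ^ l) ^ 2 * (9 * 2 ^ l) ^ 4 :=
          Nat.mul_le_mul_left _ (Nat.pow_le_pow_left (wb_sq l) _)
      _ = (2048 * 6561) * k ^ 10 * (2 ^ l) ^ 6 := by ring
      _ ≤ 48 ^ 10 * k ^ 10 * (2 ^ l) ^ 8 := by
          refine Nat.mul_le_mul (Nat.mul_le_mul_right _ (by norm_num)) ?_
          exact Nat.pow_le_pow_right (Nat.one_le_two_pow) (by norm_num)
      _ = (48 * k) ^ 10 * 2 ^ (8 * l) := by rw [mul_pow, ← pow_mul, mul_comm l 8]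
  calc (32 * (2 ^ l * E k (k * l)) ^ 2) ^ (r + 1)
      ≤ ((48 * k) ^ 10 * 2 ^ (8 * l)) ^ (r + 1) := Nat.pow_le_pow_left h1 _
    _ = (48 * k) ^ (10 * (r + 1)) * 2 ^ (k * l) := by
        rw [mul_pow, ← pow_mul, ← pow_mul, ← hK]
        congr 2
        ring
    _ ≤ (48 * k) ^ (7 * k) * 2 ^ (k * l) :=
        Nat.mul_le_mul_right _ (Nat.pow_le_pow_right (by omega) (by omega))
    _ ≤ 2 ^ 16 * (48 * k) ^ (7 * k) * 2 ^ (k * l) := by
        refine Nat.mul_le_mul_right _ ?_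
        exact Nat.le_mul_of_pos_left _ (by norm_num)
    _ = 2 ^ (k * l) * (2 ^ 16 * (48 * k) ^ (7 * k)) := by ring

end DSC
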