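import Pool.Agent.DSC.Su
import Pool.Agent.DSC.Mi
import Pool.Agent.DSC.Ag
import Pool.Agent.DSC.Si
import Pool.Agent.DSC.Wb

/-! DSC / Core: the lower bound with parameters.

`k = 8 (r+1)` characters, `D = k l` windows; the element `b u` (`u < D`) has `arg (Ψ i (b u))` small for `i > u / l` and
in a short interval at `π 2^(u % l) / 2^l * (2 - 1/(u+1))` for `i = u / l`. -/

set_option autoImplicit false

open Finset

namespace DSC

/-- the degrees of the kernels. -/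
def nn (k l u : ℕ) (i : Fin k) : ℕ :=
  if (i : ℕ) < u / l then 1 else if (i : ℕ) = u / l then 2 ^ (l - u % l) * E k u else 2 ^ l * E k u

/-- the centre of the window. -/
noncomputable def th (l u : ℕ) : ℝ :=
  Real.pi * 2 ^ (u % l) / 2 ^ l * (2 - (1 / ((u : ℝ) + 1) + 1 / ((u : ℝ) + 2)) / 2)

/-- half the length of the window. -/
noncomputable def de (l u : ℕ) : ℝ :=
  Real.pi * 2 ^ (u % l) / 2 ^ l * ((1 / ((u : ℝ) + 1) - 1 / ((u : ℝ) + 2)) / 2)

noncomputable def ze (k l u : ℕ) (i : Fin k) : ℂ :=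
  if (i : ℕ) = u / l then Complex.exp (-((th l u : ℂ) * Complex.I)) else 1

noncomputable def rh (k l u : ℕ) (i : Fin k) : ℝ :=
  (if (i : ℕ) = u / l then 2 ^ (u % l) else 1) / (2 ^ l * (((u : ℝ) + 1) * ((u : ℝ) + 2)))

def SS (k l u : ℕ) : Finset (Fin k) := Finset.univ.filter fun i => u / l ≤ (i : ℕ)

theorem E_pos (k u : ℕ) (hk : 1 ≤ k) : 1 ≤ E k u := by
  unfold E
  have : 0 < 8 * k * ((u + 1) * (u + 2)) ^ 2 := by positivity
  omega

theorem nn_pos (k l u : ℕ) (hk : 1 ≤ k) (i : Fin k) : 1 ≤ nn k l u i := by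
  unfold nn
  have hE := E_pos k u hk
  split_ifs
  · exact le_rfl
  · exact Nat.one_le_iff_ne_zero.2 (by positivity)
  · exact Nat.one_le_iff_ne_zero.2 (by positivity)

theorem nn_le (k l u : ℕ) (hk : 1 ≤ k) (i : Fin k) : nn k l u i ≤ 2 ^ l * E k u := by
  unfold nn
  have hE := E_pos k u hk
  split_ifs
  · exact Nat.one_le_iff_ne_zero.2 (by positivity)
  · exact Nat.mul_le_mul_right _ (Nat.pow_le_pow_right (by norm_num) (Nat.sub_le _ _))
  · exact le_rfl

theorem ze_norm (k l u : ℕ) (i : Fin k) : ‖ze k l u i‖ = 1 := by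
  unfold ze
  split_ifs
  · have : (-((th l u : ℂ) * Complex.I)) = ((-(th l u) : ℝ) : ℂ) * Complex.I := by
      push_cast
      ring
    rw [this]
    exact Complex.norm_exp_ofReal_mul_I _
  · exact norm_one

theorem rh_pos (k l u : ℕ) (i : Fin k) : 0 < rh k l u i := by
  unfold rh
  split_ifs <;> positivity

theorem E_mono (k u v : ℕ) (h : u ≤ v) : E k u ≤ E k v := by
  unfold E
  gcongr

theorem Gd_mono {G : Type*} [AddCommGroup G] {M N : ℕ} (h : M ≤ N) {s : G} (hs : Gd N s) : Gd M s :=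
  fun k hk hk2 => hs k hk (hk2.trans h)

theorem nr (k l u : ℕ) (hl : 1 ≤ l) (i : Fin k) (hi : i ∈ SS k l u) :
    (nn k l u i : ℝ) * rh k l u i = 8 * k * (((u : ℝ) + 1) * ((u : ℝ) + 2)) := by
  have hi' : u / l ≤ (i : ℕ) := (Finset.mem_filter.1 hi).2
  have hv : u % l ≤ l := (Nat.mod_lt _ (by omega)).le
  have h1 : ¬ (i : ℕ) < u / l := by omega
  have ha : ((u : ℝ) + 1) * ((u : ℝ) + 2) ≠ 0 := by positivity
  have h2l : (2 : ℝ) ^ l ≠ 0 := by positivity
  unfold nn rh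
  rw [if_neg h1]
  split_ifs with h
  · have e : (2 : ℝ) ^ l = 2 ^ (l - u % l) * 2 ^ (u % l) := by
      rw [← pow_add]
      congr 1
      omega
    unfold E
    push_cast
    rw [e]
    have h3 : (2 : ℝ) ^ (l - u % l) ≠ 0 := by positivity
    have h4 : (2 : ℝ) ^ (u % l) ≠ 0 := by positivity
    field_simp
  · unfold E
    push_cast
    field_simp

variable {G : Type*} [AddCommGroup G] [Fintype G]

open Classical in
/-- the bound for one window. -/
theorem one_window (k r l u : ℕ) (hk : 1 ≤ k) (hl : 1 ≤ l) (hu : u < k * l)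
    (hT : ∀ d : ℕ, 1 ≤ d → d ≤ 2 * (2 ^ l * E k u) →
      (Finset.univ.filter fun x : G => d • x = 0).card ≤ d ^ r)
    (A : Finset G) (hne : A.Nonempty) (hA : ∀ s ∈ A, Gd (32 * (2 ^ l * E k u) ^ 2) s)
    (hA2 : 2304 * ((u + 1) * (u + 2)) *
      (4 * (2 ^ (l - u % l) * E k u) * (6 * (2 ^ l * E k u)) ^ (max (k - 1 - u / l) (r + 4))) ≤ A.card) :
    ((Finset.univ.filter fun Ψ : Fin k → AddChar G ℂ =>
        ∀ s ∈ A, ∃ i ∈ SS k l u, rh k l u i < ‖Ψ i s * ze k l u i - 1‖).card : ℝ) ≤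
      (Fintype.card G : ℝ) ^ k * (1 / (2 * (((u : ℝ) + 1) * ((u : ℝ) + 2)))) := by
  have hE := E_pos k u hk
  obtain ⟨B, hB⟩ : ∃ B : ℕ, B = 2 ^ l * E k u := ⟨_, rfl⟩
  rw [← hB] at hT hA hA2
  have hB1 : 1 ≤ B := by
    rw [hB]
    exact Nat.one_le_iff_ne_zero.2 (by positivity)
  obtain ⟨M, hM⟩ : ∃ M : ℕ, M = 2 ^ (l - u % l) * E k u := ⟨_, rfl⟩
  rw [← hM] at hA2
  have hM1 : 1 ≤ M := by
    rw [hM]
    exact Nat.one_le_iff_ne_zero.2 (by positivity)
  obtain ⟨P, hP⟩ : ∃ P : ℕ, P = max (k - 1 - u / l) (r + 4) := ⟨_, rfl⟩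
  obtain ⟨W, hW⟩ : ∃ W : ℝ, W = 4 * (M : ℝ) * (6 * (B : ℝ)) ^ P := ⟨_, rfl⟩
  have hj : u / l < k := (Nat.div_lt_iff_lt_mul (by omega)).2 hu
  have hw : ∀ H : ℕ, 1 ≤ H → H ≤ 2 * B →
      (H : ℝ) ^ (r + 4) * ∏ i : Fin k, (1 + 4 * ((nn k l u i : ℝ) - 1) / H) ≤ W := by
    intro H hH1 hH2
    have h := w_le k (r + 4) B M (u / l) hj hB1 hM1 H hH1 hH2
    rw [← hP, ← hW] at h
    refine le_trans (le_of_eq ?_) h
    congr 1
    refine Finset.prod_congr rfl fun i _ => ?_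
    unfold nn
    rw [← hB, ← hM]
  have hA0 : (0 : ℝ) < A.card := by exact_mod_cast hne.card_pos
  have hnl : ∀ i, nn k l u i ≤ B := fun i => (nn_le k l u hk i).trans hB.ge
  have h1 := miss B (nn k l u) (nn_pos k l u hk) hnl (ze k l u) (ze_norm k l u)
    (rh k l u) (SS k l u) (fun i _ => rh_pos k l u i) A hne hA W
    (fun s hs => sum_rel_le r B hB1 hT (nn k l u) (nn_pos k l u hk) hnl A s (hA s hs) W hw)
  refine h1.trans (mul_le_mul_of_nonneg_left ?_ (by positivity))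
  have ha : (2 : ℝ) ≤ ((u : ℝ) + 1) * ((u : ℝ) + 2) := by
    have : (0 : ℝ) ≤ u := Nat.cast_nonneg u
    nlinarith
  have h4 : ((2304 * ((u + 1) * (u + 2)) * (4 * M * (6 * B) ^ P) : ℕ) : ℝ) ≤ A.card := by
    rw [hP]
    exact_mod_cast hA2
  push_cast at h4
  rw [← hW] at h4
  obtain ⟨a, hadef⟩ : ∃ a : ℝ, a = ((u : ℝ) + 1) * ((u : ℝ) + 2) := ⟨_, rfl⟩
  rw [← hadef] at ha h4 ⊢
  have hk1 : (1 : ℝ) ≤ k := by exact_mod_cast hk
  have h2 : 576 * W / A.card ≤ 1 / (4 * a) := by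
    rw [div_le_div_iff₀ hA0 (by positivity)]
    linarith
  have h3 : ∑ i ∈ SS k l u, 16 / ((nn k l u i : ℝ) * rh k l u i) ^ 2 ≤ 1 / (4 * a) := by
    have h4 : ∀ i ∈ SS k l u, 16 / ((nn k l u i : ℝ) * rh k l u i) ^ 2 = 16 / (8 * k * a) ^ 2 := by
      intro i hi
      rw [nr k l u hl i hi, hadef]
    rw [Finset.sum_congr rfl h4, Finset.sum_const, nsmul_eq_mul]
    have h5 : ((SS k l u).card : ℝ) ≤ k := by
      have := (SS k l u).card_le_univ
      rw [Fintype.card_fin] at this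
      exact_mod_cast this
    calc ((SS k l u).card : ℝ) * (16 / (8 * k * a) ^ 2) ≤ k * (16 / (8 * k * a) ^ 2) :=
          mul_le_mul_of_nonneg_right h5 (by positivity)
      _ = 1 / (4 * k * a ^ 2) := by
          field_simp
          norm_num
      _ ≤ 1 / (4 * a) := by
          apply one_div_le_one_div_of_le (by positivity)
          have : a ≤ k * a ^ 2 := by nlinarith
          linarith
  have h6 : 1 / (4 * a) + 1 / (4 * a) = 1 / (2 * a) := by
    field_simp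
    norm_num
  linarith

theorem tele (D : ℕ) : ∑ u ∈ range D, 1 / (2 * (((u : ℝ) + 1) * ((u : ℝ) + 2))) = 1 / 2 * (1 - 1 / ((D : ℝ) + 1)) := by
  induction D with
  | zero => simp
  | succ n ih =>
    rw [Finset.sum_range_succ, ih]
    push_cast
    field_simp
    ring

open Classical in
theorem exists_good (k r l : ℕ) (hk : 1 ≤ k) (hl : 1 ≤ l)
    (hT : ∀ d : ℕ, 1 ≤ d → d ≤ 2 * (2 ^ l * E k (k * l)) →
      (Finset.univ.filter fun x : G => d • x = 0).card ≤ d ^ r)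
    (A : Finset G) (hne : A.Nonempty) (hA : ∀ s ∈ A, Gd (32 * (2 ^ l * E k (k * l)) ^ 2) s)
    (hA2 : ∀ u < k * l, 2304 * ((u + 1) * (u + 2)) *
      (4 * (2 ^ (l - u % l) * E k u) * (6 * (2 ^ l * E k u)) ^ (max (k - 1 - u / l) (r + 4))) ≤ A.card) :
    ∃ (Ψ : Fin k → AddChar G ℂ) (b : ℕ → G), ∀ u < k * l, b u ∈ A ∧
      ∀ i ∈ SS k l u, ‖Ψ i (b u) * ze k l u i - 1‖ ≤ rh k l u i := by
  let bad : ℕ → Finset (Fin k → AddChar G ℂ) := fun u =>
    Finset.univ.filter fun Ψ : Fin k → AddChar G ℂ =>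
        ∀ s ∈ A, ∃ i ∈ SS k l u, rh k l u i < ‖Ψ i s * ze k l u i - 1‖
  have hg0 : (0 : ℝ) < (Fintype.card G : ℝ) ^ k := by
    have : (0 : ℝ) < Fintype.card G := by exact_mod_cast Fintype.card_pos
    positivity
  have h1 : (((range (k * l)).biUnion bad).card : ℝ) < (Fintype.card G : ℝ) ^ k := by
    have h2 : ((range (k * l)).biUnion bad).card ≤ ∑ u ∈ range (k * l), (bad u).card :=
      Finset.card_biUnion_le
    have h3 : (((range (k * l)).biUnion bad).card : ℝ) ≤ ∑ u ∈ range (k * l), ((bad u).card : ℝ) := by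
      exact_mod_cast h2
    have h4 : ∑ u ∈ range (k * l), ((bad u).card : ℝ) ≤
        ∑ u ∈ range (k * l), (Fintype.card G : ℝ) ^ k * (1 / (2 * (((u : ℝ) + 1) * ((u : ℝ) + 2)))) := by
      refine Finset.sum_le_sum fun u hu => ?_
      have hu' := Finset.mem_range.1 hu
      have hEE : 2 ^ l * E k u ≤ 2 ^ l * E k (k * l) := Nat.mul_le_mul_left _ (E_mono k u (k * l) hu'.le)
      exact one_window k r l u hk hl hu' (fun d hd1 hd2 => hT d hd1 (hd2.trans (Nat.mul_le_mul_left _ hEE)))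
        A hne (fun s hs => Gd_mono (Nat.mul_le_mul_left _ (Nat.pow_le_pow_left hEE 2)) (hA s hs)) (hA2 u hu')
    rw [← Finset.mul_sum, tele] at h4
    have h5 : (Fintype.card G : ℝ) ^ k * (1 / 2 * (1 - 1 / (((k * l : ℕ) : ℝ) + 1))) <
        (Fintype.card G : ℝ) ^ k := by
      have h6 : (1 / 2 * (1 - 1 / (((k * l : ℕ) : ℝ) + 1))) < 1 := by
        have : (0 : ℝ) < 1 / (((k * l : ℕ) : ℝ) + 1) := by positivity
        linarith
      nlinarith
    linarith
  have h2 : ∃ Ψ : Fin k → AddChar G ℂ, Ψ ∉ (range (k * l)).biUnion bad := by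
    by_contra hcon
    push Not at hcon
    have h3 : (Finset.univ : Finset (Fin k → AddChar G ℂ)) ⊆ (range (k * l)).biUnion bad :=
      fun Ψ _ => hcon Ψ
    have h4 := Finset.card_le_card h3
    rw [Finset.card_univ, Fintype.card_fun, Fintype.card_fin, AddChar.card_eq] at h4
    have h5 : (Fintype.card G : ℝ) ^ k ≤ (((range (k * l)).biUnion bad).card : ℝ) := by
      exact_mod_cast h4
    linarith
  obtain ⟨Ψ, hΨ⟩ := h2
  have h3 : ∀ u : ℕ, u < k * l → ∃ s : G, s ∈ A ∧ ∀ i ∈ SS k l u, ‖Ψ i s * ze k l u i - 1‖ ≤ rh k l u i := by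
    intro u hu
    by_contra hcon
    push Not at hcon
    apply hΨ
    rw [Finset.mem_biUnion]
    exact ⟨u, Finset.mem_range.2 hu, Finset.mem_filter.2 ⟨Finset.mem_univ _, hcon⟩⟩
  choose! b hb using h3
  exact ⟨Ψ, b, hb⟩

theorem th_add (l u : ℕ) : th l u + de l u = Real.pi * 2 ^ (u % l) / 2 ^ l * (2 - 1 / ((u : ℝ) + 2)) := by
  unfold th de
  ring

theorem th_sub (l u : ℕ) : th l u - de l u = Real.pi * 2 ^ (u % l) / 2 ^ l * (2 - 1 / ((u : ℝ) + 1)) := by
  unfold th de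
  ring

open Classical in
/-- from windows to a dissociated set. -/
theorem dissoc_of_windows (k l : ℕ) (hl : 1 ≤ l) (A : Finset G) (Ψ : Fin k → AddChar G ℂ) (b : ℕ → G)
    (hb : ∀ u < k * l, b u ∈ A ∧ ∀ i ∈ SS k l u, ‖Ψ i (b u) * ze k l u i - 1‖ ≤ rh k l u i) :
    ∃ B : Finset G, B ⊆ A ∧ B.card = k * l ∧ Pool.Agent.Helper81.Dissoc.Dissociated B := by
  have hl0 : 0 < l := hl
  have hdiv : ∀ u : ℕ, u < k * l → u / l < k := fun u hu => (Nat.div_lt_iff_lt_mul hl0).2 hu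
  let χ : ℕ → AddChar G ℂ := fun u => if h : u / l < k then Ψ ⟨u / l, h⟩ else 0
  have hχ : ∀ (u : ℕ) (h : u / l < k), χ u = Ψ ⟨u / l, h⟩ := fun u h => dif_pos h
  have h2l : (0 : ℝ) < 2 ^ l := by positivity
  have hpi := Real.pi_pos
  -- the window
  have hwin : ∀ u v : ℕ, u < k * l → v ≤ u → v / l = u / l →
      |Complex.arg (χ u (b v)) - th l v| ≤ de l v := by
    intro u v hu hvu hvl
    have hv : v < k * l := lt_of_le_of_lt hvu hu
    have h1 := (hb v hv).2 ⟨u / l, hdiv u hu⟩ (by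
      refine Finset.mem_filter.2 ⟨Finset.mem_univ _, ?_⟩
      exact hvl.le)
    have h2 : ze k l v ⟨u / l, hdiv u hu⟩ = Complex.exp (-((th l v : ℂ) * Complex.I)) := by
      unfold ze
      rw [if_pos hvl.symm]
    have h3 : rh k l v ⟨u / l, hdiv u hu⟩ = 2 ^ (v % l) / (2 ^ l * (((v : ℝ) + 1) * ((v : ℝ) + 2))) := by
      unfold rh
      rw [if_pos hvl.symm]
    rw [h2, h3, ← hχ u (hdiv u hu)] at h1
    have hvp : (0 : ℝ) < 2 ^ (v % l) := by positivity
    have hc : 2 ^ (v % l) / (2 : ℝ) ^ l ≤ 1 / 2 := by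
      rw [div_le_div_iff₀ h2l (by norm_num), one_mul]
      have h4 : (2 : ℝ) ^ (v % l) * 2 = 2 ^ (v % l + 1) := by rw [pow_succ]
      rw [h4]
      exact pow_le_pow_right₀ (by norm_num) (Nat.mod_lt _ hl0)
    have hc0 : 0 < 2 ^ (v % l) / (2 : ℝ) ^ l := by positivity
    refine arg_window _ (AddChar.norm_apply _ _) (th l v) (de l v) _ ?_ ?_ ?_ h1
    · rw [th_sub]
      have h5 : 1 / ((v : ℝ) + 1) ≤ 1 := by
        rw [div_le_one (by positivity)]
        have : (0 : ℝ) ≤ v := Nat.cast_nonneg v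
        linarith
      have : 0 ≤ Real.pi * 2 ^ (v % l) / 2 ^ l := by positivity
      exact mul_nonneg this (by linarith)
    · rw [th_add]
      have h5 : 0 ≤ 1 / ((v : ℝ) + 2) := by positivity
      have h6 : Real.pi * 2 ^ (v % l) / 2 ^ l = Real.pi * (2 ^ (v % l) / 2 ^ l) := by ring
      rw [h6]
      calc Real.pi * (2 ^ (v % l) / 2 ^ l) * (2 - 1 / ((v : ℝ) + 2)) ≤
            Real.pi * (2 ^ (v % l) / 2 ^ l) * 2 :=
            mul_le_mul_of_nonneg_left (by linarith) (by positivity)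
        _ ≤ Real.pi * (1 / 2) * 2 := by gcongr
        _ = Real.pi := by ring
    · unfold de
      apply le_of_eq
      field_simp
      ring
  have hsmall : ∀ u v : ℕ, u < k * l → v < u → v / l < u / l →
      |Complex.arg (χ u (b v))| ≤ Real.pi / (2 ^ l * (((v : ℝ) + 1) * ((v : ℝ) + 2))) := by
    intro u v hu hvu hvl
    have hv : v < k * l := lt_trans hvu hu
    have h1 := (hb v hv).2 ⟨u / l, hdiv u hu⟩ (by
      refine Finset.mem_filter.2 ⟨Finset.mem_univ _, ?_⟩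
      exact hvl.le)
    have h2 : ze k l v ⟨u / l, hdiv u hu⟩ = 1 := by
      unfold ze
      rw [if_neg (by exact hvl.ne')]
    have h3 : rh k l v ⟨u / l, hdiv u hu⟩ = 1 / (2 ^ l * (((v : ℝ) + 1) * ((v : ℝ) + 2))) := by
      unfold rh
      rw [if_neg (by exact hvl.ne')]
    rw [h2, h3, ← hχ u (hdiv u hu), mul_one] at h1
    have h4 := arg_small _ (AddChar.norm_apply _ _) _ h1
    refine h4.trans ?_
    have h5 : Real.pi / (2 ^ l * (((v : ℝ) + 1) * ((v : ℝ) + 2))) =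
        Real.pi * (1 / (2 ^ l * (((v : ℝ) + 1) * ((v : ℝ) + 2)))) := by ring
    rw [h5]
    refine mul_le_mul_of_nonneg_right (by linarith) (by positivity)
  have hmain := dissoc_of_arg (k * l) χ b (by
    intro u hu
    refine superinc l hl u (fun v => Complex.arg (χ u (b v))) (fun v hv hvl => hsmall u v hu hv hvl) ?_ ?_
    · intro v hv hvl
      have h1 := hwin u v hu hv.le hvl
      rw [← th_add]
      have h2 := abs_le.1 h1
      have h3 : 0 ≤ th l v - de l v := by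
        rw [th_sub]
        have h5 : 1 / ((v : ℝ) + 1) ≤ 1 := by
          rw [div_le_one (by positivity)]
          have : (0 : ℝ) ≤ v := Nat.cast_nonneg v
          linarith
        have : 0 ≤ Real.pi * 2 ^ (v % l) / 2 ^ l := by positivity
        exact mul_nonneg this (by linarith)
      rw [abs_le]
      constructor <;> linarith
    · have h1 := hwin u u hu le_rfl rfl
      rw [← th_sub]
      have h2 := abs_le.1 h1
      linarith)
  refine ⟨(range (k * l)).image b, ?_, hmain.2, hmain.1⟩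
  intro x hx
  obtain ⟨u, hu, rfl⟩ := Finset.mem_image.1 hx
  exact (hb u (Finset.mem_range.1 hu)).1

open Classical in
theorem core0 (k r l m Λ : ℕ) (hk : 1 ≤ k) (hl : 1 ≤ l)
    (hT : ∀ d : ℕ, 1 ≤ d → d ^ (r + 1) ≤ m → (Finset.univ.filter fun x : G => d • x = 0).card ≤ d ^ r)
    (A : Finset G) (hA : A.card = m) (hΛ : 1 ≤ Λ) (hm : 2 * Λ ≤ m)
    (hn1 : (32 * (2 ^ l * E k (k * l)) ^ 2) ^ (r + 1) ≤ Λ)
    (hn2 : ∀ u < k * l, 2304 * ((u + 1) * (u + 2)) *
      (4 * (2 ^ (l - u % l) * E k u) * (6 * (2 ^ l * E k u)) ^ (max (k - 1 - u / l) (r + 4))) ≤ Λ) :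
    ∃ B : Finset G, B ⊆ A ∧ B.card = k * l ∧ Pool.Agent.Helper81.Dissoc.Dissociated B := by
  have hn3 : 2 * (2 ^ l * E k (k * l)) ≤ 32 * (2 ^ l * E k (k * l)) ^ 2 := by
    generalize 2 ^ l * E k (k * l) = N
    nlinarith [Nat.le_self_pow (n := 2) (by norm_num) N]
  obtain ⟨N, hN⟩ : ∃ N : ℕ, N = 32 * (2 ^ l * E k (k * l)) ^ 2 := ⟨_, rfl⟩
  rw [← hN] at hn1 hn3
  -- the good part of `A`
  have hbad : (A.filter fun s => ¬ Gd N s).card ≤ Λ := by
    have hsub : (A.filter fun s => ¬ Gd N s) ⊆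
        (Icc 1 N).biUnion fun d => Finset.univ.filter fun x : G => d • x = 0 := by
      intro s hs
      have hs1 := (mem_filter.1 hs).2
      unfold Gd at hs1
      push Not at hs1
      obtain ⟨d, hd1, hd2, hd3⟩ := hs1
      rw [mem_biUnion]
      exact ⟨d, mem_Icc.2 ⟨hd1, hd2⟩, mem_filter.2 ⟨mem_univ _, hd3⟩⟩
    calc (A.filter fun s => ¬ Gd N s).card ≤
          ((Icc 1 N).biUnion fun d => Finset.univ.filter fun x : G => d • x = 0).card :=
          card_le_card hsub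
      _ ≤ (Icc 1 N).card * N ^ r := by
          refine card_biUnion_le_card_mul _ _ _ fun d hd => ?_
          obtain ⟨hd1, hd2⟩ := mem_Icc.1 hd
          refine (hT d hd1 ?_).trans (Nat.pow_le_pow_left hd2 r)
          exact ((Nat.pow_le_pow_left hd2 _).trans hn1).trans (by omega)
      _ = N ^ (r + 1) := by rw [Nat.card_Icc, Nat.add_sub_cancel, pow_succ, mul_comm]
      _ ≤ Λ := hn1
  have hcard := Finset.card_filter_add_card_filter_not (s := A) (fun s => Gd N s)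
  have hA2 : Λ ≤ (A.filter fun s => Gd N s).card := by omega
  have hne : (A.filter fun s => Gd N s).Nonempty := by
    rw [← Finset.card_pos]
    omega
  obtain ⟨Ψ, b, hb⟩ := exists_good k r l hk hl (fun d hd1 hd2 => hT d hd1 (by
      refine le_trans ?_ (le_trans hn1 (by omega))
      exact Nat.pow_le_pow_left (hd2.trans hn3) _)) (A.filter fun s => Gd N s) hne
    (fun s hs => by
      rw [← hN]
      exact (Finset.mem_filter.1 hs).2) (fun u hu => (hn2 u hu).trans hA2)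
  obtain ⟨B, hB1, hB2, hB3⟩ := dissoc_of_windows k l hl _ Ψ b hb
  exact ⟨B, hB1.trans (Finset.filter_subset _ _), hB2, hB3⟩

open Classical in
theorem core (r l m : ℕ) (hr : 1 ≤ r) (hl : 1 ≤ l)
    (hT : ∀ d : ℕ, 1 ≤ d → d ^ (r + 1) ≤ m → (Finset.univ.filter fun x : G => d • x = 0).card ≤ d ^ r)
    (A : Finset G) (hA : A.card = m)
    (hm : 2 * (2 ^ (8 * (r + 1) * l) * (2 ^ 16 * (48 * (8 * (r + 1))) ^ (7 * (8 * (r + 1))))) ≤ m) :
    ∃ B : Finset G, B ⊆ A ∧ B.card = 8 * (r + 1) * l ∧ Pool.Agent.Helper81.Dissoc.Dissociated B := by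
  have hn1 := num1 r l
  have hn2 := fun u (hu : u < 8 * (r + 1) * l) => num2 (8 * (r + 1)) l (r + 4) u (by omega) hl hu
  have hk : 1 ≤ 8 * (r + 1) := by omega
  generalize 8 * (r + 1) = k at *
  have hΛ : 0 < 2 ^ (k * l) * (2 ^ 16 * (48 * k) ^ (7 * k)) := by positivity
  exact core0 k r l m _ hk hl hT A hA hΛ hm hn1 hn2

end DSC
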