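import Pool.Agent.DSB.Ke
import Pool.Agent.DSB.Ex

/-!
# DSC: dimension of arbitrary sets, one-step method (many characters at once), definitions

`Gd M s`: no multiple `k s`, `1 ≤ k ≤ M`, vanishes. `Rel M s t`: the relations `a s + b t = 0` with `|a|, |b| ≤ M`.
`ht (a, b) = max |a| |b|`. `E k u = 8 k ((u+1)(u+2))²`.
-/

set_option autoImplicit false

open Finset

namespace DSC

variable {G : Type*} [AddCommGroup G]

def Gd (M : ℕ) (s : G) : Prop := ∀ k : ℕ, 1 ≤ k → k ≤ M → k • s ≠ 0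

open Classical in
noncomputable def Rel (M : ℕ) (s t : G) : Finset (ℤ × ℤ) :=
  ((Icc (-(M : ℤ)) M) ×ˢ (Icc (-(M : ℤ)) M)).filter fun q => q.1 • s + q.2 • t = 0

def ht (q : ℤ × ℤ) : ℕ := max q.1.natAbs q.2.natAbs

def E (k u : ℕ) : ℕ := 8 * k * ((u + 1) * (u + 2)) ^ 2

end DSC
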