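import Pool.Agent.DSC.Defs

/-! DSC / Kk: correlation of two values of the kernel.

PROOF. `cf_le`: for `v ∈ ℤ` let `r v` be the number of pairs `(x, y) ∈ [0,n)²` with `x + y = v`. The left side is
`∑_v r v * r (v - a) ≤ ∑_v (r v ^ 2 + r (v - a) ^ 2) / 2 ≤ ∑_v r v ^ 2 = c0 n`.
`sum_KK_le`: as in the proof of `DSB.sum_KK` (file DSB/Ex.lean; the private lemmas there, `expand`, `zpow_aux`, `norm_aux`,
`orth`, may be copied): by `DSB.K_eq` and orthogonality the sum over `ψ` is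
`|G| * ∑_{(q, q') ∈ quad n × quad n, ex q • s + ex q' • t = 0} ζ ^ (ex q) * ζ ^ (ex q')`, of norm at most `|G|` times the
number of such `(q, q')`, and for every `(a, b)` the number of `(q, q')` with `ex q = a`, `ex q' = b` is at most
`c0 n ^ 2`; `|ex q| ≤ 2n - 2` on `quad n`, so `(a, b) ∈ Rel (2n-2) s t`. -/

set_option autoImplicit false

open Finset

namespace DSC

private theorem kk_corr {α : Type*} (A : Finset α) (σ : α → ℤ) (a : ℤ) :
    ((A ×ˢ A).filter fun q => σ q.1 - σ q.2 = a).card =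
      ∑ v ∈ A.image σ, (A.filter fun x => σ x = v).card * (A.filter fun x => σ x = v - a).card := by
  classical
  have h1 : ((A ×ˢ A).filter fun q => σ q.1 - σ q.2 = a).card =
      ∑ x ∈ A, (A.filter fun y => σ y = σ x - a).card := by
    rw [Finset.card_filter, Finset.sum_product]
    refine Finset.sum_congr rfl fun x _ => ?_
    rw [Finset.card_filter]
    refine Finset.sum_congr rfl fun y _ => ?_
    have h : (σ x - σ y = a) ↔ (σ y = σ x - a) := by
      constructor <;> intro h <;> omega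
    simp only [h]
  rw [h1, Finset.sum_comp (fun v => (A.filter fun y => σ y = v - a).card) σ]
  rfl

private theorem kk_le {α : Type*} (A : Finset α) (σ : α → ℤ) (a : ℤ) :
    ((A ×ˢ A).filter fun q => σ q.1 - σ q.2 = a).card ≤
      ((A ×ˢ A).filter fun q => σ q.1 - σ q.2 = 0).card := by
  classical
  rw [kk_corr, kk_corr]
  simp only [sub_zero]
  have h1 : ∑ v ∈ A.image σ, (A.filter fun x => σ x = v - a).card *
      (A.filter fun x => σ x = v - a).card ≤
      ∑ v ∈ A.image σ, (A.filter fun x => σ x = v).card * (A.filter fun x => σ x = v).card := by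
    have h2 : ∑ v ∈ A.image σ, (A.filter fun x => σ x = v - a).card *
        (A.filter fun x => σ x = v - a).card =
        ∑ u ∈ (A.image σ).image (fun v => v - a), (A.filter fun x => σ x = u).card *
          (A.filter fun x => σ x = u).card := by
      symm
      refine Finset.sum_image (s := A.image σ) (g := fun v => v - a)
        (f := fun u => (A.filter fun x => σ x = u).card * (A.filter fun x => σ x = u).card) ?_
      intro x _ y _ h
      exact sub_left_injective h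
    rw [h2]
    refine Finset.sum_le_sum_of_ne_zero fun u _ hu => ?_
    have h3 : (A.filter fun x => σ x = u).card ≠ 0 := left_ne_zero_of_mul hu
    obtain ⟨x, hx⟩ := Finset.card_pos.mp (Nat.pos_of_ne_zero h3)
    obtain ⟨hx1, hx2⟩ := Finset.mem_filter.mp hx
    exact Finset.mem_image.mpr ⟨x, hx1, hx2⟩
  have h2 : 2 * ∑ v ∈ A.image σ, (A.filter fun x => σ x = v).card *
      (A.filter fun x => σ x = v - a).card ≤
      ∑ v ∈ A.image σ, (A.filter fun x => σ x = v).card * (A.filter fun x => σ x = v).card +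
      ∑ v ∈ A.image σ, (A.filter fun x => σ x = v - a).card *
        (A.filter fun x => σ x = v - a).card := by
    rw [← Finset.sum_add_distrib, Finset.mul_sum]
    refine Finset.sum_le_sum fun v _ => ?_
    nlinarith [sq_nonneg (((A.filter fun x => σ x = v).card : ℤ) -
      ((A.filter fun x => σ x = v - a).card : ℤ)),
      Nat.mul_le_mul_left 2 (le_refl ((A.filter fun x => σ x = v).card)),
      two_mul_le_add_sq (A.filter fun x => σ x = v).card (A.filter fun x => σ x = v - a).card]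
  omega

theorem cf_le (n : ℕ) (a : ℤ) : ((DSB.quad n).filter fun q => DSB.ex q = a).card ≤ DSB.c0 n := by
  have h : ∀ q : (ℕ × ℕ) × (ℕ × ℕ), DSB.ex q =
      (fun x : ℕ × ℕ => (x.1 : ℤ) + x.2) q.1 - (fun x : ℕ × ℕ => (x.1 : ℤ) + x.2) q.2 := by
    intro q
    simp only [DSB.ex]
    ring
  unfold DSB.c0
  simp only [h]
  exact kk_le (range n ×ˢ range n) (fun x : ℕ × ℕ => (x.1 : ℤ) + x.2) a

variable {G : Type*} [AddCommGroup G] [Fintype G]

private theorem kk_norm (ψ : AddChar G ℂ) (s : G) (ζ : ℂ) (hζ : ‖ζ‖ = 1) : ‖ψ s * ζ‖ = 1 := by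
  rw [norm_mul, hζ, AddChar.norm_apply, mul_one]

omit [Fintype G] in
private theorem kk_zpow (ψ : AddChar G ℂ) (s : G) (ζ : ℂ) (e : ℤ) :
    (ψ s * ζ) ^ e = ψ (e • s) * ζ ^ e := by
  rw [mul_zpow, AddChar.map_zsmul_eq_zpow]

open Classical in
private theorem kk_orth (x : G) :
    ∑ ψ : AddChar G ℂ, ψ x = if x = 0 then (Fintype.card G : ℂ) else 0 := by
  have := AddChar.sum_apply_eq_ite (α := G) x
  simpa using this

open Classical in
private theorem kk_expand {ι : Type*} (Q : Finset ι) (f : ι → G) (c : ι → ℂ) :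
    ∑ ψ : AddChar G ℂ, ∑ q ∈ Q, ψ (f q) * c q =
      (Fintype.card G : ℂ) * ∑ q ∈ Q.filter (fun q => f q = 0), c q := by
  rw [Finset.sum_comm]
  have h : ∀ q ∈ Q, ∑ ψ : AddChar G ℂ, ψ (f q) * c q =
      if f q = 0 then (Fintype.card G : ℂ) * c q else 0 := by
    intro q _
    rw [← Finset.sum_mul, kk_orth]
    split_ifs <;> simp
  rw [Finset.sum_congr rfl h, ← Finset.sum_filter, Finset.mul_sum]

private theorem kk_mem {n : ℕ} {q : (ℕ × ℕ) × (ℕ × ℕ)} (hq : q ∈ DSB.quad n) :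
    DSB.ex q ∈ Icc (-((2 * n - 2 : ℕ) : ℤ)) ((2 * n - 2 : ℕ) : ℤ) := by
  obtain ⟨⟨a, b⟩, ⟨c, d⟩⟩ := q
  simp only [DSB.quad, Finset.mem_product, Finset.mem_range] at hq
  simp only [DSB.ex, Finset.mem_Icc]
  constructor <;> omega

omit [Fintype G] in
open Classical in
private theorem kk_count (n : ℕ) (s t : G) :
    ((DSB.quad n ×ˢ DSB.quad n).filter
      (fun q => DSB.ex q.1 • s + DSB.ex q.2 • t = 0)).card ≤
      DSB.c0 n ^ 2 * (Rel (2 * n - 2) s t).card := by
  refine Finset.card_le_mul_card_image_of_maps_to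
    (f := fun q : ((ℕ × ℕ) × (ℕ × ℕ)) × ((ℕ × ℕ) × (ℕ × ℕ)) => (DSB.ex q.1, DSB.ex q.2)) ?_ _ ?_
  · intro q hq
    obtain ⟨h1, h2⟩ := Finset.mem_filter.mp hq
    rw [Finset.mem_product] at h1
    unfold Rel
    rw [Finset.mem_filter, Finset.mem_product]
    exact ⟨⟨kk_mem h1.1, kk_mem h1.2⟩, h2⟩
  · intro b _
    have h3 : ((DSB.quad n ×ˢ DSB.quad n).filter
        (fun q => DSB.ex q.1 • s + DSB.ex q.2 • t = 0)).filter
        (fun q => (DSB.ex q.1, DSB.ex q.2) = b) ⊆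
        ((DSB.quad n).filter fun q => DSB.ex q = b.1) ×ˢ
          ((DSB.quad n).filter fun q => DSB.ex q = b.2) := by
      intro q hq
      obtain ⟨h1, h2⟩ := Finset.mem_filter.mp hq
      obtain ⟨h4, _⟩ := Finset.mem_filter.mp h1
      rw [Finset.mem_product] at h4
      rw [Finset.mem_product, Finset.mem_filter, Finset.mem_filter, ← h2]
      exact ⟨⟨h4.1, rfl⟩, ⟨h4.2, rfl⟩⟩
    refine (Finset.card_le_card h3).trans ?_
    rw [Finset.card_product, sq]
    exact Nat.mul_le_mul (cf_le n b.1) (cf_le n b.2)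

theorem sum_KK_le (n : ℕ) (s t : G) (ζ : ℂ) (hζ : ‖ζ‖ = 1) :
    ∑ ψ : AddChar G ℂ, DSB.K n (ψ s * ζ) * DSB.K n (ψ t * ζ) ≤
      (Fintype.card G : ℝ) * (DSB.c0 n : ℝ) ^ 2 * (Rel (2 * n - 2) s t).card := by
  classical
  have key : ((∑ ψ : AddChar G ℂ, DSB.K n (ψ s * ζ) * DSB.K n (ψ t * ζ) : ℝ) : ℂ) =
      (Fintype.card G : ℂ) * ∑ q ∈ (DSB.quad n ×ˢ DSB.quad n).filter
        (fun q => DSB.ex q.1 • s + DSB.ex q.2 • t = 0),
        (ζ ^ (DSB.ex q.1) * ζ ^ (DSB.ex q.2)) := by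
    rw [Complex.ofReal_sum]
    have h1 : ∀ ψ : AddChar G ℂ, ((DSB.K n (ψ s * ζ) * DSB.K n (ψ t * ζ) : ℝ) : ℂ) =
        ∑ q ∈ DSB.quad n ×ˢ DSB.quad n,
          ψ (DSB.ex q.1 • s + DSB.ex q.2 • t) * (ζ ^ (DSB.ex q.1) * ζ ^ (DSB.ex q.2)) := by
      intro ψ
      rw [Complex.ofReal_mul, DSB.K_eq n _ (kk_norm ψ s ζ hζ), DSB.K_eq n _ (kk_norm ψ t ζ hζ),
        Finset.sum_mul_sum, ← Finset.sum_product']
      refine Finset.sum_congr rfl fun q _ => ?_
      rw [kk_zpow, kk_zpow, AddChar.map_add_eq_mul]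
      ring
    rw [Finset.sum_congr rfl fun ψ _ => h1 ψ, kk_expand]
  have hb : ‖∑ q ∈ (DSB.quad n ×ˢ DSB.quad n).filter
        (fun q => DSB.ex q.1 • s + DSB.ex q.2 • t = 0),
        (ζ ^ (DSB.ex q.1) * ζ ^ (DSB.ex q.2))‖ ≤
      (DSB.c0 n : ℝ) ^ 2 * (Rel (2 * n - 2) s t).card := by
    refine (norm_sum_le _ _).trans ?_
    have h2 : ∀ q ∈ (DSB.quad n ×ˢ DSB.quad n).filter
        (fun q => DSB.ex q.1 • s + DSB.ex q.2 • t = 0),
        ‖ζ ^ (DSB.ex q.1) * ζ ^ (DSB.ex q.2)‖ = 1 := by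
      intro q _
      rw [norm_mul, norm_zpow, norm_zpow, hζ, one_zpow, one_zpow, mul_one]
    rw [Finset.sum_congr rfl h2, Finset.sum_const, nsmul_eq_mul, mul_one]
    exact_mod_cast kk_count n s t
  have h3 : ∑ ψ : AddChar G ℂ, DSB.K n (ψ s * ζ) * DSB.K n (ψ t * ζ) ≤
      ‖((∑ ψ : AddChar G ℂ, DSB.K n (ψ s * ζ) * DSB.K n (ψ t * ζ) : ℝ) : ℂ)‖ := by
    rw [Complex.norm_real]
    exact le_abs_self _
  refine h3.trans ?_
  rw [key, norm_mul, mul_assoc]
  refine mul_le_mul ?_ hb (norm_nonneg _) (Nat.cast_nonneg _)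
  simp

end DSC
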