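import Pool.Agent.Helper81.Dissoc.Basic

/-! DSC / Lu: the upper bound with the variance.

PROOF. As in DSB/Up.lean (theorem `DSB.upper_set`; its lemmas `DSB.Up.card_sup_le`, `DSB.Up.two_pow_le` may be imported from
`Pool.Agent.DSB.Up`, and its proof copied): `H` a subgroup of maximal order among those of order `h ≤ m`; if `H = ⊤`, then
`m = |G|` and `2^d ≤ m`. Otherwise `A ⊆ Q = {y + x g : y ∈ H, 0 ≤ x < M}`, `|A| = m ≤ h M < m + h`. Let `B ⊆ A` be dissociated,
`d = |B|`, `b = y_b + x_b g`. For `S ⊆ B` let `X_S = ∑_{b ∈ S} x_b`. Then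
`∑_{S ⊆ B} (2 X_S - X_B)² = 2^d ∑_b x_b² ≤ 2^d d M²` (induction on `B`). So the number of `S` with `(2 X_S - X_B)² ≥ 4 d M²` is
at most `2^d / 4`, and for the others, at least `3/4 2^d` in number, `X_S` lies in the set of the natural numbers `x` with
`(2x - X_B)² < 4 d M²`, which has at most `2 M √d + 1` elements (an open interval of length `2 √d M`). The sums
`∑_{b ∈ S} b ∈ {y + x g}` are distinct (`Dissociated.sum_injOn`), so `3/4 2^d ≤ h (2 M √d + 1) ≤ h M (2 √d + 1) ≤ 2m (2 √(d+1) + √(d+1))`,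
i.e. `2^d ≤ 8 √(d+1) m`. -/

set_option autoImplicit false

open Finset

namespace DSC

/-- the second moment of the subset sums. -/
theorem var_sum {ι : Type*} [DecidableEq ι] (B : Finset ι) (x : ι → ℝ) :
    ∑ S ∈ B.powerset, (2 * (∑ b ∈ S, x b) - ∑ b ∈ B, x b) ^ 2 = 2 ^ B.card * ∑ b ∈ B, x b ^ 2 := by
  induction B using Finset.induction_on with
  | empty => simp
  | insert a B ha ih =>
    have h : ∀ S ∈ B.powerset, ∑ b ∈ insert a S, x b = x a + ∑ b ∈ S, x b := fun S hS =>
      Finset.sum_insert (fun h => ha (Finset.mem_powerset.1 hS h))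
    rw [Finset.sum_powerset_insert ha, Finset.card_insert_of_notMem ha, Finset.sum_insert ha,
      Finset.sum_insert ha, ← Finset.sum_add_distrib]
    have e : ∑ S ∈ B.powerset, ((2 * (∑ b ∈ S, x b) - (x a + ∑ b ∈ B, x b)) ^ 2 +
        (2 * (∑ b ∈ insert a S, x b) - (x a + ∑ b ∈ B, x b)) ^ 2) =
        ∑ S ∈ B.powerset, (2 * (2 * (∑ b ∈ S, x b) - ∑ b ∈ B, x b) ^ 2 + 2 * x a ^ 2) :=
      Finset.sum_congr rfl fun S hS => by
        rw [h S hS]
        ring
    rw [e, Finset.sum_add_distrib, ← Finset.mul_sum, ih, Finset.sum_const, Finset.card_powerset,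
      nsmul_eq_mul]
    push_cast
    ring

private theorem card_sup_le' {G : Type*} [AddCommGroup G] [Finite G] (H : AddSubgroup G) (g : G) (j : ℕ)
    (hj : 1 ≤ j) (hjg : j • g ∈ H) : Nat.card ↥(H ⊔ AddSubgroup.zmultiples g) ≤ Nat.card H * j := by
  have h1 : Nat.card (H × Fin j) = Nat.card H * j := by
    rw [Nat.card_prod, Nat.card_eq_fintype_card (α := Fin j), Fintype.card_fin]
  rw [← h1]
  have hmem : ∀ p : H × Fin j, (p.1 : G) + (p.2 : ℕ) • g ∈ H ⊔ AddSubgroup.zmultiples g := by
    intro p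
    refine add_mem (AddSubgroup.mem_sup_left p.1.2) (AddSubgroup.mem_sup_right ?_)
    exact nsmul_mem (AddSubgroup.mem_zmultiples g) _
  refine Nat.card_le_card_of_surjective
    (fun p : H × Fin j => (⟨(p.1 : G) + (p.2 : ℕ) • g, hmem p⟩ : ↥(H ⊔ AddSubgroup.zmultiples g))) ?_
  rintro ⟨y, hy⟩
  obtain ⟨h, hh, z, hz, rfl⟩ := AddSubgroup.mem_sup.1 hy
  obtain ⟨x, rfl⟩ := AddSubgroup.mem_zmultiples_iff.1 hz
  have hj0 : (0 : ℤ) < j := by omega
  have e2 := Int.emod_nonneg x hj0.ne'
  have e3 := Int.emod_lt_of_pos x hj0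
  have e4 := Int.emod_add_mul_ediv x j
  have e5 : x • g = (x / j) • (j • g) + (x % j).toNat • g := by
    rw [← natCast_zsmul, ← natCast_zsmul, Int.toNat_of_nonneg e2, smul_smul, ← add_smul]
    congr 1
    linarith
  refine ⟨(⟨h + (x / j) • (j • g), add_mem hh (zsmul_mem hjg _)⟩, ⟨(x % j).toNat, by omega⟩), ?_⟩
  apply Subtype.ext
  simp only
  rw [e5, add_assoc]

private theorem two_pow_le' {G : Type*} [AddCommGroup G] {B : Finset G}
    (hB : Pool.Agent.Helper81.Dissoc.Dissociated B) (T : Finset G)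
    (hT : ∀ S : Finset G, S ⊆ B → ∑ b ∈ S, b ∈ T) : 2 ^ B.card ≤ T.card := by
  classical
  rw [← Finset.card_powerset]
  refine Finset.card_le_card_of_injOn (fun S => ∑ b ∈ S, b)
    (fun S hS => hT S (Finset.mem_powerset.1 hS)) ?_
  intro S hS T hT h
  exact hB.sum_injOn (Finset.mem_powerset.mp hS) (Finset.mem_powerset.mp hT) h

theorem upper_set {G : Type*} [AddCommGroup G] [Fintype G] (m : ℕ) (hm : 1 ≤ m) (hmG : m ≤ Fintype.card G) :
    ∃ A : Finset G, A.card = m ∧ ∀ B : Finset G, B ⊆ A → Pool.Agent.Helper81.Dissoc.Dissociated B →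
      (2 : ℝ) ^ B.card ≤ 8 * Real.sqrt (B.card + 1) * m := by
  classical
  obtain ⟨H, hHm, hHmax⟩ := Set.exists_max_image {H : AddSubgroup G | Nat.card H ≤ m}
    (fun H : AddSubgroup G => Nat.card H) (Set.toFinite _) ⟨⊥, by
      show Nat.card (⊥ : AddSubgroup G) ≤ m
      rw [AddSubgroup.card_bot]
      exact hm⟩
  have hHm' : Nat.card H ≤ m := hHm
  have hH0 : 0 < Nat.card H := Nat.card_pos
  by_cases htop : H = ⊤
  · refine ⟨Finset.univ, ?_, fun B _ hB => ?_⟩
    · rw [htop, AddSubgroup.card_top, Nat.card_eq_fintype_card] at hHm'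
      rw [Finset.card_univ]
      omega
    · have h1 := two_pow_le' hB Finset.univ fun S _ => Finset.mem_univ _
      rw [htop, AddSubgroup.card_top, Nat.card_eq_fintype_card] at hHm'
      rw [Finset.card_univ] at h1
      have h2 : 2 ^ B.card ≤ m := h1.trans hHm'
      have h3 : (2 : ℝ) ^ B.card ≤ m := by exact_mod_cast h2
      have h4 : (1 : ℝ) ≤ Real.sqrt (B.card + 1) := by
        rw [Real.one_le_sqrt]
        have : (0 : ℝ) ≤ B.card := Nat.cast_nonneg _
        linarith
      have h5 : (0 : ℝ) ≤ m := Nat.cast_nonneg _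
      nlinarith
  · obtain ⟨g, hg⟩ : ∃ g, g ∉ H := by
      by_contra hcon
      push Not at hcon
      exact htop ((AddSubgroup.eq_top_iff' H).2 hcon)
    set h := Nat.card H with hh
    obtain ⟨M, hM1, hM2⟩ : ∃ M : ℕ, h * M < m + h ∧ m ≤ h * M := by
      refine ⟨(m + h - 1) / h, ?_, ?_⟩
      · have := Nat.mul_div_le (m + h - 1) h
        omega
      · have := Nat.lt_mul_div_succ (m + h - 1) hH0
        rw [mul_add, mul_one] at this
        omega
    have hM0 : 0 < M := by
      rcases Nat.eq_zero_or_pos M with h0 | h0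
      · rw [h0] at hM2; omega
      · exact h0
    -- small multiples of `g` are not in `H`
    have hnot : ∀ j : ℕ, 1 ≤ j → j < M → j • g ∉ H := by
      intro j hj1 hjM hjH
      have h1 : Nat.card ↥(H ⊔ AddSubgroup.zmultiples g) ≤ h * j := card_sup_le' H g j hj1 hjH
      have h2 : h * j < m := by
        have h3 : h * (j + 1) ≤ h * M := Nat.mul_le_mul_left _ hjM
        rw [mul_add, mul_one] at h3
        omega
      have h3 := hHmax (H ⊔ AddSubgroup.zmultiples g) (by
        show Nat.card _ ≤ m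
        omega)
      have h4 : H = H ⊔ AddSubgroup.zmultiples g :=
        AddSubgroup.eq_of_le_of_card_ge le_sup_left h3
      apply hg
      rw [h4]
      exact AddSubgroup.mem_sup_right (AddSubgroup.mem_zmultiples g)
    -- the progression
    let φ : H × ℕ → G := fun p => (p.1 : G) + p.2 • g
    have hφ : Set.InjOn φ ((Finset.univ : Finset H) ×ˢ (Finset.range M) : Finset (H × ℕ)) := by
      have key : ∀ p q : H × ℕ, p.2 ≤ q.2 → q.2 < M → φ p = φ q → p = q := by
        intro p q hpq hqM hpq2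
        have h1 : (q.2 - p.2) • g = (p.1 : G) - (q.1 : G) := by
          have h2 : (p.1 : G) + p.2 • g = (q.1 : G) + q.2 • g := hpq2
          have h3 : q.2 • g = (q.2 - p.2) • g + p.2 • g := by
            rw [← add_smul]
            congr 1
            omega
          rw [h3] at h2
          rw [eq_sub_iff_add_eq]
          have h4 : (p.1 : G) + p.2 • g = ((q.2 - p.2) • g + (q.1 : G)) + p.2 • g := by
            rw [h2]; abel
          exact (add_right_cancel h4).symm
        have h2 : (q.2 - p.2) • g ∈ H := by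
          rw [h1]
          exact sub_mem p.1.2 q.1.2
        have h3 : q.2 - p.2 = 0 := by
          by_contra h0
          exact hnot (q.2 - p.2) (by omega) (by omega) h2
        rw [h3, zero_smul] at h1
        have h4 : p.1 = q.1 := Subtype.ext (sub_eq_zero.1 h1.symm)
        exact Prod.ext h4 (by omega)
      intro p hp q hq hpq
      have hp' : p.2 < M := by
        have := (Finset.mem_product.1 (Finset.mem_coe.1 hp)).2
        exact Finset.mem_range.1 this
      have hq' : q.2 < M := by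
        have := (Finset.mem_product.1 (Finset.mem_coe.1 hq)).2
        exact Finset.mem_range.1 this
      rcases le_total p.2 q.2 with hle | hle
      · exact key p q hle hq' hpq
      · exact (key q p hle hp' hpq.symm).symm
    have hcH : (Finset.univ : Finset H).card = h := by
      rw [Finset.card_univ, hh, Nat.card_eq_fintype_card]
    set Q : Finset G := ((Finset.univ : Finset H) ×ˢ (Finset.range M)).image φ with hQ
    have hQc : Q.card = h * M := by
      rw [hQ, Finset.card_image_of_injOn hφ, Finset.card_product, hcH, Finset.card_range]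
    obtain ⟨A, hAQ, hAm⟩ := Finset.exists_subset_card_eq (s := Q) (n := m) (by rw [hQc]; exact hM2)
    refine ⟨A, hAm, fun B hBA hB => ?_⟩
    rcases Nat.eq_zero_or_pos B.card with hd | hd
    · have hm' : (1 : ℝ) ≤ m := by exact_mod_cast hm
      rw [hd]
      simp only [pow_zero, Nat.cast_zero, zero_add, Real.sqrt_one, mul_one]
      linarith
    have hex : ∀ b : G, ∃ p : H × ℕ, b ∈ B → p.2 < M ∧ (p.1 : G) + p.2 • g = b := by
      intro b
      by_cases hb : b ∈ B
      · have hbQ : b ∈ Q := hAQ (hBA hb)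
        rw [hQ, Finset.mem_image] at hbQ
        obtain ⟨p, hp, hpb⟩ := hbQ
        exact ⟨p, fun _ => ⟨Finset.mem_range.1 (Finset.mem_product.1 hp).2, hpb⟩⟩
      · exact ⟨(0, 0), fun h => absurd h hb⟩
    choose p hp using hex
    obtain ⟨x, hx⟩ : ∃ x : G → ℝ, x = fun b => ((p b).2 : ℝ) := ⟨_, rfl⟩
    obtain ⟨d, hd'⟩ : ∃ d : ℝ, d = (B.card : ℝ) := ⟨_, rfl⟩
    have hd1 : (1 : ℝ) ≤ d := by
      rw [hd']
      exact_mod_cast hd
    have hMr : (1 : ℝ) ≤ M := by exact_mod_cast hM0
    obtain ⟨s, hs⟩ : ∃ s : ℝ, s = M * Real.sqrt d := ⟨_, rfl⟩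
    have hs2 : s ^ 2 = M ^ 2 * d := by
      rw [hs, mul_pow, Real.sq_sqrt (by linarith)]
    have hs0 : 0 ≤ s := by
      rw [hs]
      positivity
    obtain ⟨XB, hXB⟩ : ∃ XB : ℝ, XB = ∑ b ∈ B, x b := ⟨_, rfl⟩
    -- few bad sets
    have hvar : ∑ S ∈ B.powerset, (2 * (∑ b ∈ S, x b) - XB) ^ 2 ≤ 2 ^ B.card * s ^ 2 := by
      rw [hXB, var_sum]
      refine mul_le_mul_of_nonneg_left ?_ (by positivity)
      calc ∑ b ∈ B, x b ^ 2 ≤ ∑ b ∈ B, (M : ℝ) ^ 2 := by
            refine Finset.sum_le_sum fun b hb => ?_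
            have h1 : x b ≤ M := by
              rw [hx]
              show ((p b).2 : ℝ) ≤ M
              exact_mod_cast (hp b hb).1.le
            have h2 : 0 ≤ x b := by
              rw [hx]
              positivity
            exact pow_le_pow_left₀ h2 h1 2
        _ = s ^ 2 := by
            rw [Finset.sum_const, nsmul_eq_mul, hs2, hd']
            ring
    obtain ⟨good, hgood⟩ : ∃ good : Finset (Finset G), good =
      B.powerset.filter (fun S => (2 * (∑ b ∈ S, x b) - XB) ^ 2 < (2 * s) ^ 2) := ⟨_, rfl⟩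
    obtain ⟨bad, hbad⟩ : ∃ bad : Finset (Finset G), bad =
      B.powerset.filter (fun S => ¬ (2 * (∑ b ∈ S, x b) - XB) ^ 2 < (2 * s) ^ 2) := ⟨_, rfl⟩
    have hcard : good.card + bad.card = 2 ^ B.card := by
      rw [hgood, hbad, Finset.card_filter_add_card_filter_not, Finset.card_powerset]
    have hbad1 : (bad.card : ℝ) * (2 * s) ^ 2 ≤ 2 ^ B.card * s ^ 2 := by
      refine le_trans ?_ hvar
      calc (bad.card : ℝ) * (2 * s) ^ 2 = ∑ S ∈ bad, (2 * s) ^ 2 := by
            rw [Finset.sum_const, nsmul_eq_mul]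
        _ ≤ ∑ S ∈ bad, (2 * (∑ b ∈ S, x b) - XB) ^ 2 := by
            refine Finset.sum_le_sum fun S hS => ?_
            rw [hbad, Finset.mem_filter] at hS
            exact not_lt.1 hS.2
        _ ≤ _ := by
            refine Finset.sum_le_sum_of_subset_of_nonneg ?_ fun _ _ _ => sq_nonneg _
            rw [hbad]
            exact Finset.filter_subset _ _
    have hspos : 0 < s ^ 2 := by
      rw [hs2]
      have : (0 : ℝ) < M ^ 2 := by positivity
      nlinarith
    have hbad2 : 4 * (bad.card : ℝ) ≤ 2 ^ B.card := by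
      have h1 : (4 * (bad.card : ℝ)) * s ^ 2 ≤ 2 ^ B.card * s ^ 2 := by
        calc (4 * (bad.card : ℝ)) * s ^ 2 = (bad.card : ℝ) * (2 * s) ^ 2 := by ring
          _ ≤ _ := hbad1
      exact le_of_mul_le_mul_right h1 hspos
    have hgood1 : 3 / 4 * (2 : ℝ) ^ B.card ≤ good.card := by
      have h1 : (good.card : ℝ) + bad.card = 2 ^ B.card := by exact_mod_cast hcard
      linarith
    -- the good sets have few sums
    obtain ⟨T, hT⟩ : ∃ T : Finset ℤ, T = Finset.Icc ⌈(XB - 2 * s) / 2⌉ ⌊(XB + 2 * s) / 2⌋ :=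
      ⟨_, rfl⟩
    have hTc : (T.card : ℝ) ≤ 2 * s + 1 := by
      rw [hT, Int.card_Icc]
      rcases le_total 0 (⌊(XB + 2 * s) / 2⌋ + 1 - ⌈(XB - 2 * s) / 2⌉) with h0 | h0
      · have h1 : (((⌊(XB + 2 * s) / 2⌋ + 1 - ⌈(XB - 2 * s) / 2⌉).toNat : ℤ) : ℝ) =
            ((⌊(XB + 2 * s) / 2⌋ + 1 - ⌈(XB - 2 * s) / 2⌉ : ℤ) : ℝ) := by
          rw [Int.toNat_of_nonneg h0]
        rw [Int.cast_natCast] at h1
        rw [h1]
        push_cast
        have h2 := Int.floor_le ((XB + 2 * s) / 2)
        have h3 := Int.le_ceil ((XB - 2 * s) / 2)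
        linarith
      · rw [Int.toNat_of_nonpos h0]
        push_cast
        linarith
    let ψ : H × ℤ → G := fun q => (q.1 : G) + q.2 • g
    have hgc : good.card ≤ (((Finset.univ : Finset H) ×ˢ T).image ψ).card := by
      refine Finset.card_le_card_of_injOn (fun S => ∑ b ∈ S, b) ?_ ?_
      · intro S hS
        have hS' := Finset.mem_coe.1 hS
        rw [hgood, Finset.mem_filter, Finset.mem_powerset] at hS'
        obtain ⟨hSB, hlt⟩ := hS'
        rw [Finset.mem_coe, Finset.mem_image]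
        refine ⟨(∑ b ∈ S, (p b).1, ((∑ b ∈ S, (p b).2 : ℕ) : ℤ)),
          Finset.mem_product.2 ⟨Finset.mem_univ _, ?_⟩, ?_⟩
        · have h1 := abs_lt_of_sq_lt_sq hlt (by linarith)
          rw [abs_lt] at h1
          have h2 : (∑ b ∈ S, x b) = (((∑ b ∈ S, (p b).2 : ℕ) : ℤ) : ℝ) := by
            rw [hx]
            push_cast
            rfl
          rw [h2] at h1
          rw [hT, Finset.mem_Icc]
          constructor
          · rw [Int.ceil_le]
            linarith [h1.1]
          · rw [Int.le_floor]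
            linarith [h1.2]
        · change ((∑ b ∈ S, (p b).1 : H) : G) + ((∑ b ∈ S, (p b).2 : ℕ) : ℤ) • g = ∑ b ∈ S, b
          rw [natCast_zsmul, Finset.sum_smul, AddSubmonoidClass.coe_finsetSum,
            ← Finset.sum_add_distrib]
          exact Finset.sum_congr rfl fun b hb => (hp b (hSB hb)).2
      · intro S hS S' hS' h
        have h1 := Finset.mem_coe.1 hS
        have h2 := Finset.mem_coe.1 hS'
        rw [hgood, Finset.mem_filter] at h1 h2
        exact hB.sum_injOn (Finset.mem_powerset.mp h1.1) (Finset.mem_powerset.mp h2.1) h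
    have hgc2 : good.card ≤ h * T.card := by
      refine hgc.trans ?_
      have h2 := Finset.card_image_le (s := (Finset.univ : Finset H) ×ˢ T) (f := ψ)
      rw [Finset.card_product, hcH] at h2
      exact h2
    have hgc3 : (good.card : ℝ) ≤ h * T.card := by exact_mod_cast hgc2
    have hhM : (h : ℝ) * M ≤ 2 * m := by
      have h1 : h * M ≤ 2 * m := by omega
      exact_mod_cast h1
    have hh0 : (0 : ℝ) ≤ h := Nat.cast_nonneg _
    have hsq1 : Real.sqrt d ≤ Real.sqrt (d + 1) := Real.sqrt_le_sqrt (by linarith)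
    have hsq2 : 1 ≤ Real.sqrt (d + 1) := by
      rw [Real.one_le_sqrt]
      linarith
    have hsq0 : 0 ≤ Real.sqrt d := Real.sqrt_nonneg d
    have hfin : (h : ℝ) * (2 * s + 1) ≤ 6 * Real.sqrt (d + 1) * m := by
      calc (h : ℝ) * (2 * s + 1) ≤ h * (M * (2 * Real.sqrt d + 1)) := by
            refine mul_le_mul_of_nonneg_left ?_ hh0
            rw [hs]
            nlinarith
        _ = h * M * (2 * Real.sqrt d + 1) := by ring
        _ ≤ 2 * m * (2 * Real.sqrt d + 1) :=
            mul_le_mul_of_nonneg_right hhM (by linarith)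
        _ ≤ 2 * m * (3 * Real.sqrt (d + 1)) := by
            refine mul_le_mul_of_nonneg_left (by linarith) (by positivity)
        _ = 6 * Real.sqrt (d + 1) * m := by ring
    have h7 : (h : ℝ) * T.card ≤ h * (2 * s + 1) := mul_le_mul_of_nonneg_left hTc hh0
    have h8 : 3 / 4 * (2 : ℝ) ^ B.card ≤ 6 * Real.sqrt (d + 1) * m :=
      hgood1.trans (hgc3.trans (h7.trans hfin))
    rw [← hd']
    linarith

end DSC
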