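import Mathlib

/-! DSC / Nm: the final numerical steps.

PROOF. `upper_num` (compare DSB/Un.lean): `L = logb 2 m ≥ 2`. From the hypothesis `d ≤ 3 + logb 2 (d+1) / 2 + L`, and
`logb 2 (d+1) ≤ d`, so `d ≤ 6 + 2 L`, `d + 1 ≤ 2 L + 7 ≤ 8 L`, `logb 2 (d + 1) ≤ 3 + logb 2 L`, and `d ≤ L + logb 2 L / 2 + 5`.
`lower_num`: `k = 8 (r+1) ≤ 16 r`; `q = 2 * (2^16 (48k)^(7k))`, `logb 2 q = 17 + 7 k logb 2 (48 k) ≤ 17 + 112 r (10 + logb 2 r) ≤
17 + 1120 r logb 2 (2r)` (`logb 2 (2r) = 1 + logb 2 r ≥ 1`). If `L = logb 2 m ≤ logb 2 q + k` take `l = 0`... (then the second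
alternative holds); otherwise let `l = ⌊(L - logb 2 q) / k⌋ ≥ 1`; then `2^(k l) q ≤ 2^L = m` and
`k l ≥ L - logb 2 q - k ≥ L - C r logb 2 (2r)` with `C = 1200`. -/

set_option autoImplicit false

namespace DSC

theorem upper_num (m d : ℕ) (hm : 4 ≤ m) (h : (2 : ℝ) ^ d ≤ 8 * Real.sqrt (d + 1) * m) :
    (d : ℝ) ≤ Real.logb 2 m + Real.logb 2 (Real.logb 2 m) / 2 + 5 := by
  have hm0 : (0 : ℝ) < m := by positivity
  have hL : 2 ≤ Real.logb 2 m := by
    rw [Real.le_logb_iff_rpow_le (by norm_num) hm0]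
    have : (4 : ℝ) ≤ m := by exact_mod_cast hm
    norm_num
    linarith
  have h6 : Real.logb 2 2 = 1 := Real.logb_self_eq_one (by norm_num)
  have h10 : Real.logb 2 (8 : ℝ) = 3 := by
    rw [show (8 : ℝ) = 2 ^ 3 by norm_num, Real.logb_pow, h6]; norm_num
  have hd0 : (0 : ℝ) < (d : ℝ) + 1 := by positivity
  have hs : Real.logb 2 (Real.sqrt ((d : ℝ) + 1)) = Real.logb 2 ((d : ℝ) + 1) / 2 := by
    rw [Real.sqrt_eq_rpow, Real.logb_rpow_eq_mul_logb_of_pos hd0]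
    ring
  have h8 : Real.logb 2 ((2 : ℝ) ^ d) ≤ Real.logb 2 (8 * Real.sqrt (d + 1) * m) :=
    Real.logb_le_logb_of_le (by norm_num) (by positivity) h
  have hsq : Real.sqrt ((d : ℝ) + 1) ≠ 0 := (Real.sqrt_pos.2 hd0).ne'
  rw [Real.logb_mul (mul_ne_zero (by norm_num) hsq) hm0.ne', Real.logb_mul (by norm_num) hsq,
    Real.logb_pow, h6, h10, hs, mul_one] at h8
  have h1 : Real.logb 2 ((d : ℝ) + 1) ≤ d := by
    have h2 : (d : ℝ) + 1 ≤ 2 ^ d := by
      have h3 : d + 1 ≤ 2 ^ d := Nat.lt_two_pow_self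
      exact_mod_cast h3
    have h4 := Real.logb_le_logb_of_le (b := 2) (by norm_num) hd0 h2
    rw [Real.logb_pow, h6, mul_one] at h4
    exact h4
  have h9 : Real.logb 2 ((d : ℝ) + 1) ≤ Real.logb 2 (8 * Real.logb 2 m) := by
    apply Real.logb_le_logb_of_le (by norm_num) (by positivity)
    linarith
  rw [Real.logb_mul (by norm_num) (by positivity), h10] at h9
  linarith

theorem lower_num :
    ∃ C : ℝ, 1 ≤ C ∧ ∀ m r : ℕ, 1 ≤ m → 1 ≤ r →
      Real.logb 2 m - C * (r * Real.logb 2 (2 * r)) ≤ 0 ∨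
      ∃ l : ℕ, 1 ≤ l ∧ 2 * (2 ^ (8 * (r + 1) * l) * (2 ^ 16 * (48 * (8 * (r + 1))) ^ (7 * (8 * (r + 1))))) ≤ m ∧
        Real.logb 2 m - C * (r * Real.logb 2 (2 * r)) ≤ (8 * (r + 1) * l : ℕ) := by
  refine ⟨1200, by norm_num, ?_⟩
  intro m r hm hr
  have h6 : Real.logb 2 2 = 1 := Real.logb_self_eq_one (by norm_num)
  have hm0 : (0 : ℝ) < m := by exact_mod_cast hm
  have hr1 : (1 : ℝ) ≤ r := by exact_mod_cast hr
  have hr0 : (0 : ℝ) < r := by linarith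
  have hlr : 0 ≤ Real.logb 2 (r : ℝ) := Real.logb_nonneg (by norm_num) hr1
  have hl2 : Real.logb 2 (2 * (r : ℝ)) = 1 + Real.logb 2 (r : ℝ) := by
    rw [Real.logb_mul (by norm_num) hr0.ne', h6]
  set M : ℝ := (r : ℝ) * Real.logb 2 (2 * (r : ℝ)) with hM
  have hM1 : (r : ℝ) ≤ M := by
    rw [hM, hl2]
    nlinarith
  set k : ℕ := 8 * (r + 1) with hk
  have hk0 : 0 < k := by omega
  have hkR : (0 : ℝ) < k := by exact_mod_cast hk0
  have hk16 : (k : ℝ) ≤ 16 * r := by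
    have : k ≤ 16 * r := by omega
    exact_mod_cast this
  set Q : ℕ := 2 * (2 ^ 16 * (48 * k) ^ (7 * k)) with hQ
  have hQ0 : (0 : ℝ) < (Q : ℝ) := by
    rw [hQ]
    positivity
  have hlq : Real.logb 2 (Q : ℝ) = 17 + 7 * k * Real.logb 2 (48 * (k : ℝ)) := by
    rw [hQ]
    push_cast
    have h16 : Real.logb 2 (65536 : ℝ) = 16 := by
      rw [show (65536 : ℝ) = 2 ^ 16 by norm_num, Real.logb_pow, h6]
      norm_num
    rw [Real.logb_mul (by norm_num) (by positivity), Real.logb_mul (by norm_num) (by positivity),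
      Real.logb_pow, h6, h16]
    push_cast
    ring
  have h768 : Real.logb 2 (48 * (k : ℝ)) ≤ 10 + Real.logb 2 (r : ℝ) := by
    have h1 : 48 * (k : ℝ) ≤ 2 ^ 10 * r := by linarith
    have h2 := Real.logb_le_logb_of_le (b := 2) (by norm_num) (by positivity) h1
    rw [Real.logb_mul (by norm_num) hr0.ne', Real.logb_pow, h6] at h2
    push_cast at h2
    linarith
  have hlk : 0 ≤ Real.logb 2 (48 * (k : ℝ)) := by
    refine Real.logb_nonneg (by norm_num) ?_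
    have : (1 : ℝ) ≤ k := by exact_mod_cast hk0
    linarith
  have hq : Real.logb 2 (Q : ℝ) ≤ 17 + 1120 * M := by
    rw [hlq]
    have h1 : 7 * (k : ℝ) * Real.logb 2 (48 * (k : ℝ)) ≤
        7 * (16 * (r : ℝ)) * (10 + Real.logb 2 (r : ℝ)) :=
      mul_le_mul (by linarith) h768 hlk (by positivity)
    have h2 : 7 * (16 * (r : ℝ)) * (10 + Real.logb 2 (r : ℝ)) ≤ 1120 * M := by
      rw [hM, hl2]
      have : 0 ≤ (r : ℝ) * Real.logb 2 (r : ℝ) := mul_nonneg hr0.le hlr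
      linarith
    linarith
  have hsum : Real.logb 2 (Q : ℝ) + k ≤ 1200 * M := by linarith
  by_cases hc : Real.logb 2 (m : ℝ) ≤ Real.logb 2 (Q : ℝ) + k
  · left
    linarith
  · right
    rw [not_le] at hc
    set x : ℝ := (Real.logb 2 (m : ℝ) - Real.logb 2 (Q : ℝ)) / k with hx
    have hx1 : 1 ≤ x := by
      rw [hx, le_div_iff₀ hkR]
      linarith
    have hx0 : 0 ≤ x := by linarith
    refine ⟨⌊x⌋₊, (Nat.one_le_floor_iff x).2 hx1, ?_, ?_⟩
    · have h1 : (⌊x⌋₊ : ℝ) ≤ x := Nat.floor_le hx0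
      have h2 : (k : ℝ) * ⌊x⌋₊ ≤ Real.logb 2 (m : ℝ) - Real.logb 2 (Q : ℝ) := by
        have h3 := mul_le_mul_of_nonneg_left h1 hkR.le
        rw [hx, mul_div_cancel₀ _ hkR.ne'] at h3
        exact h3
      have h4 : Real.logb 2 (((2 ^ (k * ⌊x⌋₊) * Q : ℕ)) : ℝ) ≤ Real.logb 2 (m : ℝ) := by
        push_cast
        rw [Real.logb_mul (by positivity) hQ0.ne', Real.logb_pow, h6]
        push_cast
        linarith
      have h5 : (((2 ^ (k * ⌊x⌋₊) * Q : ℕ)) : ℝ) ≤ (m : ℝ) := by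
        rw [Real.logb_le_logb (by norm_num) _ hm0] at h4
        · exact h4
        · push_cast
          positivity
      have h7 : 2 ^ (k * ⌊x⌋₊) * Q ≤ m := by exact_mod_cast h5
      refine le_trans (le_of_eq ?_) h7
      rw [hQ]
      ring
    · have h1 : x < (⌊x⌋₊ : ℝ) + 1 := Nat.lt_floor_add_one x
      have h2 : Real.logb 2 (m : ℝ) - Real.logb 2 (Q : ℝ) ≤ (k : ℝ) * (⌊x⌋₊ + 1) := by
        have h3 := mul_le_mul_of_nonneg_left h1.le hkR.le
        rw [hx, mul_div_cancel₀ _ hkR.ne'] at h3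
        exact h3
      push_cast
      linarith

end DSC
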