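import Pool.Agent.DSB.Rk
import Pool.Agent.DSB.Main
import Pool.Agent.DSC.Core
import Pool.Agent.DSC.Lu
import Pool.Agent.DSC.Nm

/-! DSC / Main: assembly. -/

set_option autoImplicit false

open Finset Pool.Agent.Helper81.Dissoc

namespace DSC

open Classical in
theorem main :
    ∃ C : ℝ, ∀ (G : Type*) [AddCommGroup G] [Fintype G] (m r : ℕ), 1 ≤ m → m ≤ Fintype.card G → 1 ≤ r →
      ((∃ S : Finset G, AddSubgroup.closure (S : Set G) = ⊤ ∧ S.card ≤ r) ∨
        ∀ k : ℕ, 1 ≤ k → k ^ (r + 1) ≤ m → (Finset.univ.filter fun x : G => k • x = 0).card ≤ k ^ r) →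
      Real.logb 2 m - C * (r * Real.logb 2 (2 * r)) ≤ dimGm G m ∧
        (4 ≤ m → (dimGm G m : ℝ) ≤ Real.logb 2 m + Real.logb 2 (Real.logb 2 m) / 2 + C) := by
  obtain ⟨C0, hC0, hpar⟩ := lower_num
  refine ⟨max C0 5, ?_⟩
  intro G _ _ m r hm hmG hr hG
  have hr1 : (1 : ℝ) ≤ r := by exact_mod_cast hr
  have hS : 0 ≤ (r : ℝ) * Real.logb 2 (2 * r) :=
    mul_nonneg (by linarith) (Real.logb_nonneg (by norm_num) (by linarith))
  have h7 : C0 * (r * Real.logb 2 (2 * r)) ≤ max C0 5 * (r * Real.logb 2 (2 * r)) :=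
    mul_le_mul_of_nonneg_right (le_max_left _ _) hS
  constructor
  · rcases hpar m r hm hr with h | ⟨l, hl, hlm, hfin⟩
    · have h8 : (0 : ℝ) ≤ dimGm G m := by positivity
      linarith
    · have hT : ∀ k : ℕ, 1 ≤ k → k ^ (r + 1) ≤ m →
          (Finset.univ.filter fun x : G => k • x = 0).card ≤ k ^ r := by
        intro k hk1 hk2
        rcases hG with ⟨S, hS1, hS2⟩ | hG
        · exact DSB.torsion_le r S hS1 hS2 k hk1
        · exact hG k hk1 hk2
      obtain ⟨A, hA, hAd⟩ := DSB.exists_set_dimGm (G := G) m hmG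
      obtain ⟨B, hBA, hBc, hB⟩ := core r l m hr hl hT A hA hlm
      have h6 : (B.card : ℝ) ≤ dimGm G m := by
        rw [← hAd]
        exact_mod_cast le_dissDim hBA hB
      rw [hBc] at h6
      linarith
  · intro hm4
    obtain ⟨A, hA, hAB⟩ := upper_set (G := G) m hm hmG
    have h1 : dimGm G m ≤ dissDim A := Nat.sInf_le ⟨A, hA, rfl⟩
    obtain ⟨B, hBA, hB, hBc⟩ := exists_dissDim_eq A
    have h2 := upper_num m B.card hm4 (hAB B hBA hB)
    have h3 : (dimGm G m : ℝ) ≤ B.card := by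
      rw [hBc]
      exact_mod_cast h1
    have h4 : (5 : ℝ) ≤ max C0 5 := le_max_right _ _
    linarith

end DSC
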