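import Pool.Agent.DSC.Kk

/-! DSC / Mo: first and second moments for `k` independent characters.

`F n ζ Ψ s = ∏ i, K (n i) (Ψ i s * ζ i)`, `c n = ∏ i, c0 (n i)`.

PROOF. All three from `Finset.prod_univ_sum` / `Finset.sum_prod_piFinset` (the sum over `Ψ : Fin k → AddChar G ℂ` of
a product over `i` of functions of `Ψ i` is the product of the sums), `DSB.sum_K` (first), `sum_KK_le` (second; all factors
are nonnegative) and for the third `DSB.sum_P` in the factor `i` and `DSB.sum_K` in the others.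
In `leak1`, for `ρ < ‖w - 1‖`: `K n w ≤ 4 P n w / ρ²` (`DSB.K_mul_le`), so the left side is at most
`(4/ρ²) |G| n * ∏_{j ≠ i} |G| c0 (n j) = |G|^k (4 n / ρ²) c / c0 n ≤ |G|^k c * 8 / (n ρ)²` (`DSB.c0_ge`: `n³ ≤ 2 c0 n`). -/

set_option autoImplicit false

open Finset

namespace DSC

variable {G : Type*} [AddCommGroup G] [Fintype G]

noncomputable def F {k : ℕ} (n : Fin k → ℕ) (ζ : Fin k → ℂ) (Ψ : Fin k → AddChar G ℂ) (s : G) : ℝ :=
  ∏ i, DSB.K (n i) (Ψ i s * ζ i)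

noncomputable def c {k : ℕ} (n : Fin k → ℕ) : ℝ := ∏ i, (DSB.c0 (n i) : ℝ)

private theorem mo_K_nonneg (n : ℕ) (w : ℂ) : 0 ≤ DSB.K n w := by
  unfold DSB.K
  positivity

private theorem mo_P_nonneg (n : ℕ) (w : ℂ) : 0 ≤ DSB.P n w := by
  unfold DSB.P
  positivity

private theorem mo_c0_pos {n : ℕ} (hn : 1 ≤ n) : 0 < DSB.c0 n := by
  have h1 := DSB.c0_ge n hn
  have h2 : 0 < n ^ 3 := by positivity
  omega

private theorem mo_sum {k : ℕ} (g : Fin k → AddChar G ℂ → ℝ) :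
    ∑ Ψ : Fin k → AddChar G ℂ, ∏ i, g i (Ψ i) = ∏ i, ∑ ψ : AddChar G ℂ, g i ψ := by
  rw [← Finset.sum_prod_piFinset, Fintype.piFinset_univ]

theorem F_nonneg {k : ℕ} (n : Fin k → ℕ) (ζ : Fin k → ℂ) (Ψ : Fin k → AddChar G ℂ) (s : G) :
    0 ≤ F n ζ Ψ s := Finset.prod_nonneg fun _ _ => mo_K_nonneg _ _

theorem c_pos {k : ℕ} (n : Fin k → ℕ) (hn : ∀ i, 1 ≤ n i) : 0 < c n :=
  Finset.prod_pos fun i _ => by exact_mod_cast mo_c0_pos (hn i)

theorem mean {k : ℕ} (n : Fin k → ℕ) (ζ : Fin k → ℂ) (hζ : ∀ i, ‖ζ i‖ = 1) (s : G)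
    (hs : ∀ i, Gd (2 * n i) s) :
    ∑ Ψ : Fin k → AddChar G ℂ, F n ζ Ψ s = (Fintype.card G : ℝ) ^ k * c n := by
  unfold F c
  rw [mo_sum (fun i ψ => DSB.K (n i) (ψ s * ζ i)),
    Finset.prod_congr rfl fun i _ => DSB.sum_K (n i) s (hs i) (ζ i) (hζ i),
    Finset.prod_mul_distrib, Finset.prod_const, Finset.card_univ, Fintype.card_fin]

theorem second {k : ℕ} (n : Fin k → ℕ) (ζ : Fin k → ℂ) (hζ : ∀ i, ‖ζ i‖ = 1) (s t : G) :
    ∑ Ψ : Fin k → AddChar G ℂ, F n ζ Ψ s * F n ζ Ψ t ≤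
      (Fintype.card G : ℝ) ^ k * c n ^ 2 * ∏ i, ((Rel (2 * n i - 2) s t).card : ℝ) := by
  unfold F c
  have h1 : ∀ Ψ : Fin k → AddChar G ℂ, (∏ i, DSB.K (n i) (Ψ i s * ζ i)) *
      (∏ i, DSB.K (n i) (Ψ i t * ζ i)) =
      ∏ i, (DSB.K (n i) (Ψ i s * ζ i) * DSB.K (n i) (Ψ i t * ζ i)) :=
    fun Ψ => Finset.prod_mul_distrib.symm
  rw [Finset.sum_congr rfl fun Ψ _ => h1 Ψ,
    mo_sum (fun i (ψ : AddChar G ℂ) => DSB.K (n i) (ψ s * ζ i) * DSB.K (n i) (ψ t * ζ i))]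
  calc ∏ i, ∑ ψ : AddChar G ℂ, DSB.K (n i) (ψ s * ζ i) * DSB.K (n i) (ψ t * ζ i)
      ≤ ∏ i, ((Fintype.card G : ℝ) * (DSB.c0 (n i) : ℝ) ^ 2 * (Rel (2 * n i - 2) s t).card) :=
        Finset.prod_le_prod (fun i _ => Finset.sum_nonneg fun ψ _ =>
          mul_nonneg (mo_K_nonneg _ _) (mo_K_nonneg _ _))
          fun i _ => sum_KK_le (n i) s t (ζ i) (hζ i)
    _ = _ := by
        rw [Finset.prod_mul_distrib, Finset.prod_mul_distrib, Finset.prod_const, Finset.card_univ,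
          Fintype.card_fin, Finset.prod_pow]

open Classical in
theorem leak1 {k : ℕ} (n : Fin k → ℕ) (hn : ∀ i, 1 ≤ n i) (ζ : Fin k → ℂ) (hζ : ∀ i, ‖ζ i‖ = 1) (s : G)
    (hs : ∀ i, Gd (2 * n i) s) (i : Fin k) (ρ : ℝ) (hρ : 0 < ρ) :
    ∑ Ψ ∈ Finset.univ.filter (fun Ψ : Fin k → AddChar G ℂ => ρ < ‖Ψ i s * ζ i - 1‖), F n ζ Ψ s ≤
      (Fintype.card G : ℝ) ^ k * c n * (8 / ((n i : ℝ) * ρ) ^ 2) := by
  obtain ⟨g, hg⟩ : ∃ g : Fin k → AddChar G ℂ → ℝ, ∀ j ψ, g j ψ =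
      if j = i then 4 / ρ ^ 2 * DSB.P (n j) (ψ s * ζ j) else DSB.K (n j) (ψ s * ζ j) :=
    ⟨_, fun _ _ => rfl⟩
  have hg0 : ∀ j ψ, 0 ≤ g j ψ := by
    intro j ψ
    rw [hg]
    split_ifs
    · exact mul_nonneg (by positivity) (mo_P_nonneg _ _)
    · exact mo_K_nonneg _ _
  have hcard : (0 : ℝ) ≤ Fintype.card G := Nat.cast_nonneg _
  have h1 : ∀ Ψ ∈ Finset.univ.filter (fun Ψ : Fin k → AddChar G ℂ => ρ < ‖Ψ i s * ζ i - 1‖),
      F n ζ Ψ s ≤ ∏ j, g j (Ψ j) := by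
    intro Ψ hΨ
    have h2 : ρ < ‖Ψ i s * ζ i - 1‖ := (Finset.mem_filter.1 hΨ).2
    refine Finset.prod_le_prod (fun j _ => mo_K_nonneg _ _) fun j _ => ?_
    rw [hg]
    split_ifs with hj
    · subst hj
      have h3 : ‖Ψ j s * ζ j‖ = 1 := by
        rw [norm_mul, hζ j, mul_one]
        exact AddChar.norm_apply _ _
      have h4 := DSB.K_mul_le (n j) (Ψ j s * ζ j) h3
      have h5 : ρ ^ 2 ≤ ‖Ψ j s * ζ j - 1‖ ^ 2 := by
        have := h2.le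
        gcongr
      have h6 : DSB.K (n j) (Ψ j s * ζ j) * ρ ^ 2 ≤ 4 * DSB.P (n j) (Ψ j s * ζ j) :=
        (mul_le_mul_of_nonneg_left h5 (mo_K_nonneg _ _)).trans h4
      rw [div_mul_eq_mul_div, le_div_iff₀ (by positivity)]
      exact h6
    · exact le_rfl
  calc ∑ Ψ ∈ Finset.univ.filter (fun Ψ : Fin k → AddChar G ℂ => ρ < ‖Ψ i s * ζ i - 1‖), F n ζ Ψ s
      ≤ ∑ Ψ ∈ Finset.univ.filter (fun Ψ : Fin k → AddChar G ℂ => ρ < ‖Ψ i s * ζ i - 1‖),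
          ∏ j, g j (Ψ j) := Finset.sum_le_sum h1
    _ ≤ ∑ Ψ : Fin k → AddChar G ℂ, ∏ j, g j (Ψ j) :=
        Finset.sum_le_sum_of_subset_of_nonneg (Finset.filter_subset _ _)
          fun Ψ _ _ => Finset.prod_nonneg fun j _ => hg0 j _
    _ = ∏ j, ∑ ψ : AddChar G ℂ, g j ψ := mo_sum g
    _ ≤ ∏ j, ((Fintype.card G : ℝ) * (DSB.c0 (n j) : ℝ) *
          (if j = i then 8 / ((n i : ℝ) * ρ) ^ 2 else 1)) := by
        refine Finset.prod_le_prod (fun j _ => Finset.sum_nonneg fun ψ _ => hg0 j ψ) fun j _ => ?_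
        by_cases hj : j = i
        · subst hj
          rw [if_pos rfl, Finset.sum_congr rfl fun ψ _ => (hg j ψ).trans (if_pos rfl),
            ← Finset.mul_sum, DSB.sum_P (n j) s (hs j) (ζ j) (hζ j)]
          have h2 : ((n j : ℝ)) ^ 3 ≤ 2 * (DSB.c0 (n j) : ℝ) := by
            exact_mod_cast DSB.c0_ge (n j) (hn j)
          have h3 : (0 : ℝ) < n j := by exact_mod_cast hn j
          have h4 : 4 / ρ ^ 2 * (n j : ℝ) ≤ (DSB.c0 (n j) : ℝ) * (8 / ((n j : ℝ) * ρ) ^ 2) := by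
            rw [div_mul_eq_mul_div, mul_div_assoc', mul_pow, div_le_div_iff₀ (by positivity)
              (by positivity)]
            have h5 : 0 ≤ 4 * ρ ^ 2 := by positivity
            nlinarith [mul_le_mul_of_nonneg_left h2 h5]
          calc 4 / ρ ^ 2 * ((Fintype.card G : ℝ) * n j)
              = (Fintype.card G : ℝ) * (4 / ρ ^ 2 * (n j : ℝ)) := by ring
            _ ≤ (Fintype.card G : ℝ) * ((DSB.c0 (n j) : ℝ) * (8 / ((n j : ℝ) * ρ) ^ 2)) :=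
                mul_le_mul_of_nonneg_left h4 hcard
            _ = _ := by ring
        · rw [if_neg hj, mul_one, Finset.sum_congr rfl fun ψ _ => (hg j ψ).trans (if_neg hj),
            DSB.sum_K (n j) s (hs j) (ζ j) (hζ j)]
    _ = (Fintype.card G : ℝ) ^ k * c n * (8 / ((n i : ℝ) * ρ) ^ 2) := by
        rw [Finset.prod_mul_distrib, Finset.prod_mul_distrib, Finset.prod_const, Finset.card_univ,
          Fintype.card_fin, Finset.prod_ite_eq' Finset.univ i, if_pos (Finset.mem_univ i)]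
        rfl

end DSC
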