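import Pool.Agent.DSC.Defs

/-! DSC / Rl: the relations between `s` and `t` lie on a line.

PROOF. `gap_card`: the map `x ↦ (x + M) / H` (integer division) is injective on `X` (if `x < y` in `X` then
`y ≥ x + H`), with values in `[0, 2M/H]`, so `|X| ≤ 2M/H + 1`.
`par`: `b' (a s + b t) - b (a' s + b' t) = (a b' - a' b) s = 0` and `|a b' - a' b| ≤ 2 (4N)² = 32 N²`, so `a b' = a' b`
by `Gd`.
`card_rel_le`: let `v = (a₀, b₀)`, `H = ht v ≥ 1` the least height of a nonzero element of `Rel (2N) s t`. Two elements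
of `Rel (2n-2) s t` differ by an element `d` of `Rel (4N) s t`, which if nonzero has `ht d ≥ H` (either `ht d > 2N ≥ H`
or `d ∈ Rel (2N) s t`), and `d` is parallel to `v`. If `|a₀| ≥ |b₀|` (so `|a₀| = H ≠ 0`) then for every `(a, b)` parallel
to `v` we have `|a₀| |b| = |a| |b₀| ≤ |a| |a₀|`, so `ht (a, b) = |a|`; hence the first coordinates of the elements of
`Rel (2n-2) s t` are pairwise at distance `≥ H` (and distinct), they lie in `[-(2n-2), 2n-2]`, and `gap_card` gives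
the bound. If `|a₀| < |b₀|` use the second coordinates.
`prod_rel_le`: if `Rel (2N) s t` has no nonzero element, all the cardinals are `≤ 1` and the claim is clear (the sum over
the empty set is `0`). Otherwise let `v` be a nonzero element with the least height; by `card_rel_le` the product
is at most `∏ (1 + 4 (n i - 1) / ht v)`, which is one of the (nonnegative) terms of the sum on the right. -/

set_option autoImplicit false

open Finset

namespace DSC

theorem gap_card (M H : ℕ) (hH : 1 ≤ H) (X : Finset ℤ) (hX : ∀ x ∈ X, |x| ≤ (M : ℤ))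
    (hg : ∀ x ∈ X, ∀ y ∈ X, x ≠ y → (H : ℤ) ≤ |x - y|) : (X.card : ℝ) ≤ 1 + 2 * M / H := by
  have hHz : (0 : ℤ) < (H : ℤ) := by exact_mod_cast hH
  have hcard : X.card ≤ (Finset.Icc (0 : ℤ) ((2 * M : ℤ) / H)).card := by
    apply Finset.card_le_card_of_injOn (fun x : ℤ => (x + (M : ℤ)) / (H : ℤ))
    · intro x hx
      have h1 := abs_le.1 (hX x hx)
      rw [Finset.mem_coe, Finset.mem_Icc]
      constructor
      · exact Int.ediv_nonneg (by linarith [h1.1]) hHz.le
      · exact Int.ediv_le_ediv hHz (by linarith [h1.2])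
    · intro x hx y hy hxy
      by_contra hne
      have h1 := hg x hx y hy hne
      have h2 : (x + M) / H = (y + M) / (H : ℤ) := hxy
      have h3 := Int.emod_add_mul_ediv (x + M) H
      have h4 := Int.emod_add_mul_ediv (y + M) H
      have h5 := Int.emod_nonneg (x + M) hHz.ne'
      have h6 := Int.emod_nonneg (y + M) hHz.ne'
      have h7 := Int.emod_lt_of_pos (x + M) hHz
      have h8 := Int.emod_lt_of_pos (y + M) hHz
      rw [h2] at h3
      have h9 : |x - y| < H := by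
        rw [abs_lt]
        constructor <;> linarith
      linarith
  have hnn : (0 : ℤ) ≤ (2 * M : ℤ) / H := Int.ediv_nonneg (by positivity) hHz.le
  have h1 : (Finset.Icc (0 : ℤ) ((2 * M : ℤ) / H)).card = (((2 * M : ℤ) / H) + 1).toNat := by
    rw [Int.card_Icc]
    simp
  have h2 : ((X.card : ℕ) : ℤ) ≤ (2 * M : ℤ) / H + 1 := by
    have h3 : X.card ≤ (((2 * M : ℤ) / H) + 1).toNat := h1 ▸ hcard
    have h4 : ((X.card : ℕ) : ℤ) ≤ ((((2 * M : ℤ) / H) + 1).toNat : ℤ) := by exact_mod_cast h3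
    rw [Int.toNat_of_nonneg (by linarith)] at h4
    exact h4
  have hHr : (0 : ℝ) < (H : ℝ) := by exact_mod_cast hH
  have h5 : (((2 * M : ℤ) / H : ℤ) : ℝ) ≤ 2 * M / H := by
    rw [le_div_iff₀ hHr]
    have h6 : ((2 * M : ℤ) / H) * H ≤ 2 * M := Int.ediv_mul_le _ hHz.ne'
    exact_mod_cast h6
  have h7 : ((X.card : ℕ) : ℝ) ≤ (((2 * M : ℤ) / H : ℤ) : ℝ) + 1 := by exact_mod_cast h2
  linarith

variable {G : Type*} [AddCommGroup G]

theorem mem_Rel {M : ℕ} {s t : G} {q : ℤ × ℤ} :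
    q ∈ Rel M s t ↔ (|q.1| ≤ (M : ℤ) ∧ |q.2| ≤ (M : ℤ)) ∧ q.1 • s + q.2 • t = 0 := by
  classical
  unfold Rel
  rw [Finset.mem_filter, Finset.mem_product, Finset.mem_Icc, Finset.mem_Icc, abs_le, abs_le]

theorem Gd_int {M : ℕ} {s : G} (hs : Gd M s) (z : ℤ) (hz : |z| ≤ (M : ℤ)) (h0 : z • s = 0) : z = 0 := by
  by_contra hne
  have h1 : 1 ≤ z.natAbs := Nat.one_le_iff_ne_zero.2 (Int.natAbs_ne_zero.2 hne)
  have h2 : z.natAbs ≤ M := by
    have h3 : ((z.natAbs : ℕ) : ℤ) ≤ M := by rw [Int.natCast_natAbs]; exact hz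
    exact_mod_cast h3
  apply hs z.natAbs h1 h2
  have h4 : ((z.natAbs : ℕ) : ℤ) • s = 0 := by
    rcases Int.natAbs_eq z with h | h
    · rw [← h]; exact h0
    · have h5 : ((z.natAbs : ℕ) : ℤ) = -z := by omega
      rw [h5, neg_smul, h0, neg_zero]
  rwa [natCast_zsmul] at h4

theorem par (N : ℕ) (s t : G) (hs : Gd (32 * N ^ 2) s) (q q' : ℤ × ℤ) (hq : q ∈ Rel (4 * N) s t)
    (hq' : q' ∈ Rel (4 * N) s t) : q.1 * q'.2 = q'.1 * q.2 := by
  rw [mem_Rel] at hq hq'
  obtain ⟨⟨h1, h2⟩, h3⟩ := hq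
  obtain ⟨⟨h1', h2'⟩, h3'⟩ := hq'
  have h4 : (q.1 * q'.2 - q'.1 * q.2) • s = 0 := by
    have h5 : (q.1 * q'.2 - q'.1 * q.2) • s = q'.2 • (q.1 • s + q.2 • t) - q.2 • (q'.1 • s + q'.2 • t) := by
      module
    rw [h5, h3, h3', smul_zero, smul_zero, sub_zero]
  have h6 : |q.1 * q'.2 - q'.1 * q.2| ≤ ((32 * N ^ 2 : ℕ) : ℤ) := by
    have h7 : |q.1 * q'.2 - q'.1 * q.2| ≤ |q.1 * q'.2| + |q'.1 * q.2| := abs_sub _ _
    have h8 : |q.1 * q'.2| ≤ ((4 * N : ℕ) : ℤ) * ((4 * N : ℕ) : ℤ) := by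
      rw [abs_mul]
      exact mul_le_mul h1 h2' (abs_nonneg _) (by positivity)
    have h9 : |q'.1 * q.2| ≤ ((4 * N : ℕ) : ℤ) * ((4 * N : ℕ) : ℤ) := by
      rw [abs_mul]
      exact mul_le_mul h1' h2 (abs_nonneg _) (by positivity)
    push_cast at h8 h9 ⊢
    nlinarith
  have := Gd_int hs _ h6 h4
  linarith

theorem card_rel_le (N n : ℕ) (hn : 1 ≤ n) (hnN : n ≤ N) (s t : G) (hs : Gd (32 * N ^ 2) s)
    (v : ℤ × ℤ) (hv : v ∈ (Rel (2 * N) s t).erase 0)
    (hmin : ∀ q ∈ (Rel (2 * N) s t).erase 0, ht v ≤ ht q) :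
    ((Rel (2 * n - 2) s t).card : ℝ) ≤ 1 + 4 * ((n : ℝ) - 1) / ht v := by
  have hv0 : v ≠ 0 := (Finset.mem_erase.1 hv).1
  have hvR := (Finset.mem_erase.1 hv).2
  have hvR' := mem_Rel.1 hvR
  have hv4 : v ∈ Rel (4 * N) s t := by
    rw [mem_Rel]
    obtain ⟨⟨h1, h2⟩, h3⟩ := hvR'
    push_cast at h1 h2 ⊢
    exact ⟨⟨by linarith, by linarith⟩, h3⟩
  have hH : 1 ≤ ht v := by
    unfold ht
    by_contra hlt
    have h1 : max v.1.natAbs v.2.natAbs = 0 := by omega
    have h2 : v.1 = 0 ∧ v.2 = 0 := by omega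
    exact hv0 (Prod.ext h2.1 h2.2)
  have hvle : ht v ≤ 2 * N := by
    obtain ⟨⟨h1, h2⟩, _⟩ := hvR'
    unfold ht
    push_cast at h1 h2
    have h3 := abs_le.1 h1
    have h4 := abs_le.1 h2
    omega
  -- differences
  have hdiff : ∀ x ∈ Rel (2 * n - 2) s t, ∀ y ∈ Rel (2 * n - 2) s t, x ≠ y →
      (x - y) ∈ Rel (4 * N) s t ∧ ht v ≤ ht (x - y) := by
    intro x hx y hy hxy
    obtain ⟨⟨h1, h2⟩, h3⟩ := mem_Rel.1 hx
    obtain ⟨⟨h1', h2'⟩, h3'⟩ := mem_Rel.1 hy
    have e1 := abs_le.1 h1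
    have e2 := abs_le.1 h2
    have e1' := abs_le.1 h1'
    have e2' := abs_le.1 h2'
    have hc : ((2 * n - 2 : ℕ) : ℤ) = 2 * n - 2 := by omega
    rw [hc] at e1 e2 e1' e2'
    have hnN' : (n : ℤ) ≤ N := by exact_mod_cast hnN
    have hrel : (x - y).1 • s + (x - y).2 • t = 0 := by
      have h5 : (x - y).1 • s + (x - y).2 • t = (x.1 • s + x.2 • t) - (y.1 • s + y.2 • t) := by
        rw [Prod.fst_sub, Prod.snd_sub]
        module
      rw [h5, h3, h3', sub_zero]
    refine ⟨?_, ?_⟩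
    · rw [mem_Rel]
      refine ⟨⟨?_, ?_⟩, hrel⟩
      · rw [Prod.fst_sub, abs_le]; push_cast
        constructor <;> linarith [e1.1, e1.2, e1'.1, e1'.2]
      · rw [Prod.snd_sub, abs_le]; push_cast
        constructor <;> linarith [e2.1, e2.2, e2'.1, e2'.2]
    · by_cases hbig : 2 * N < ht (x - y)
      · omega
      · apply hmin
        rw [Finset.mem_erase]
        refine ⟨sub_ne_zero.2 hxy, ?_⟩
        rw [mem_Rel]
        refine ⟨?_, hrel⟩
        unfold ht at hbig
        rw [abs_le, abs_le]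
        push_cast
        constructor <;> constructor <;> omega
  have hcR : ((2 * n - 2 : ℕ) : ℝ) = 2 * n - 2 := by
    rw [Nat.cast_sub (by omega)]
    push_cast
    ring
  by_cases hco : v.2.natAbs ≤ v.1.natAbs
  · -- first coordinate
    have hht : ht v = v.1.natAbs := by unfold ht; omega
    have hpos : 0 < |v.1| := by
      have : v.1 ≠ 0 := by
        intro h0
        rw [hht, h0] at hH
        simp at hH
      exact abs_pos.2 this
    have hle : |v.2| ≤ |v.1| := by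
      rw [← Int.natCast_natAbs, ← Int.natCast_natAbs]
      exact_mod_cast hco
    have hpr : ∀ d ∈ Rel (4 * N) s t, |d.2| ≤ |d.1| := by
      intro d hd
      have h1 := par N s t hs v d hv4 hd
      have h2 : |v.1| * |d.2| = |d.1| * |v.2| := by rw [← abs_mul, ← abs_mul, h1]
      have h3 : |v.1| * |d.2| ≤ |v.1| * |d.1| := by
        rw [h2, mul_comm]
        exact mul_le_mul_of_nonneg_right hle (abs_nonneg _)
      exact le_of_mul_le_mul_left h3 hpos
    have hgap : ∀ x ∈ Rel (2 * n - 2) s t, ∀ y ∈ Rel (2 * n - 2) s t, x ≠ y →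
        ((ht v : ℕ) : ℤ) ≤ |x.1 - y.1| := by
      intro x hx y hy hxy
      obtain ⟨h1, h2⟩ := hdiff x hx y hy hxy
      have h3 := hpr _ h1
      have h4 : ((ht v : ℕ) : ℤ) ≤ ((ht (x - y) : ℕ) : ℤ) := by exact_mod_cast h2
      have h5 : ((ht (x - y) : ℕ) : ℤ) = |(x - y).1| := by
        unfold ht
        rw [Nat.cast_max, Int.natCast_natAbs, Int.natCast_natAbs]
        exact max_eq_left h3
      rw [h5, Prod.fst_sub] at h4
      exact h4
    have hinj : Set.InjOn (fun q : ℤ × ℤ => q.1) (Rel (2 * n - 2) s t : Set (ℤ × ℤ)) := by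
      intro x hx y hy hxy
      by_contra hne
      have h1 := hgap x hx y hy hne
      have h2 : x.1 = y.1 := hxy
      rw [h2, sub_self, abs_zero] at h1
      have : (1 : ℤ) ≤ ((ht v : ℕ) : ℤ) := by exact_mod_cast hH
      linarith
    rw [← Finset.card_image_of_injOn hinj]
    have := gap_card (2 * n - 2) (ht v) hH ((Rel (2 * n - 2) s t).image fun q : ℤ × ℤ => q.1) (by
        intro x hx
        obtain ⟨q, hq, rfl⟩ := Finset.mem_image.1 hx
        exact (mem_Rel.1 hq).1.1) (by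
        intro x hx y hy hxy
        obtain ⟨q, hq, rfl⟩ := Finset.mem_image.1 hx
        obtain ⟨q', hq', rfl⟩ := Finset.mem_image.1 hy
        exact hgap q hq q' hq' (fun h => hxy (by rw [h])))
    refine this.trans (le_of_eq ?_)
    rw [hcR]
    ring
  · have hht : ht v = v.2.natAbs := by unfold ht; omega
    have hpos : 0 < |v.2| := by
      have : v.2 ≠ 0 := by
        intro h0
        rw [hht, h0] at hH
        simp at hH
      exact abs_pos.2 this
    have hle : |v.1| ≤ |v.2| := by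
      rw [← Int.natCast_natAbs, ← Int.natCast_natAbs]
      exact_mod_cast (not_le.1 hco).le
    have hpr : ∀ d ∈ Rel (4 * N) s t, |d.1| ≤ |d.2| := by
      intro d hd
      have h1 := par N s t hs v d hv4 hd
      have h2 : |v.1| * |d.2| = |d.1| * |v.2| := by rw [← abs_mul, ← abs_mul, h1]
      have h3 : |v.2| * |d.1| ≤ |v.2| * |d.2| := by
        rw [mul_comm (|v.2|) (|d.1|), ← h2]
        exact mul_le_mul_of_nonneg_right hle (abs_nonneg _)
      exact le_of_mul_le_mul_left h3 hpos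
    have hgap : ∀ x ∈ Rel (2 * n - 2) s t, ∀ y ∈ Rel (2 * n - 2) s t, x ≠ y →
        ((ht v : ℕ) : ℤ) ≤ |x.2 - y.2| := by
      intro x hx y hy hxy
      obtain ⟨h1, h2⟩ := hdiff x hx y hy hxy
      have h3 := hpr _ h1
      have h4 : ((ht v : ℕ) : ℤ) ≤ ((ht (x - y) : ℕ) : ℤ) := by exact_mod_cast h2
      have h5 : ((ht (x - y) : ℕ) : ℤ) = |(x - y).2| := by
        unfold ht
        rw [Nat.cast_max, Int.natCast_natAbs, Int.natCast_natAbs]
        exact max_eq_right h3
      rw [h5, Prod.snd_sub] at h4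
      exact h4
    have hinj : Set.InjOn (fun q : ℤ × ℤ => q.2) (Rel (2 * n - 2) s t : Set (ℤ × ℤ)) := by
      intro x hx y hy hxy
      by_contra hne
      have h1 := hgap x hx y hy hne
      have h2 : x.2 = y.2 := hxy
      rw [h2, sub_self, abs_zero] at h1
      have : (1 : ℤ) ≤ ((ht v : ℕ) : ℤ) := by exact_mod_cast hH
      linarith
    rw [← Finset.card_image_of_injOn hinj]
    have := gap_card (2 * n - 2) (ht v) hH ((Rel (2 * n - 2) s t).image fun q : ℤ × ℤ => q.2) (by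
        intro x hx
        obtain ⟨q, hq, rfl⟩ := Finset.mem_image.1 hx
        exact (mem_Rel.1 hq).1.2) (by
        intro x hx y hy hxy
        obtain ⟨q, hq, rfl⟩ := Finset.mem_image.1 hx
        obtain ⟨q', hq', rfl⟩ := Finset.mem_image.1 hy
        exact hgap q hq q' hq' (fun h => hxy (by rw [h])))
    refine this.trans (le_of_eq ?_)
    rw [hcR]
    ring

theorem prod_rel_le {k : ℕ} (N : ℕ) (n : Fin k → ℕ) (hn : ∀ i, 1 ≤ n i) (hnN : ∀ i, n i ≤ N)
    (s t : G) (hs : Gd (32 * N ^ 2) s) :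
    ∏ i, ((Rel (2 * n i - 2) s t).card : ℝ) ≤
      1 + ∑ q ∈ (Rel (2 * N) s t).erase 0, ∏ i, (1 + 4 * ((n i : ℝ) - 1) / ht q) := by
  have hnn : ∀ q : ℤ × ℤ, ∀ i, (0 : ℝ) ≤ 1 + 4 * ((n i : ℝ) - 1) / ht q := by
    intro q i
    have h1 : (1 : ℝ) ≤ n i := by exact_mod_cast hn i
    have h2 : (0 : ℝ) ≤ 4 * ((n i : ℝ) - 1) / ht q := by
      apply div_nonneg (by linarith) (Nat.cast_nonneg _)
    linarith
  rcases ((Rel (2 * N) s t).erase 0).eq_empty_or_nonempty with he | hne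
  · rw [he, Finset.sum_empty, add_zero]
    have hc1 : ∀ i, ((Rel (2 * n i - 2) s t).card : ℝ) ≤ 1 := by
      intro i
      have h1 : (Rel (2 * n i - 2) s t).card ≤ 1 := by
        rw [Finset.card_le_one]
        have hz : ∀ a ∈ Rel (2 * n i - 2) s t, a = 0 := by
          intro a ha
          by_contra hane
          have h2 : a ∈ (Rel (2 * N) s t).erase 0 := by
            rw [Finset.mem_erase]
            refine ⟨hane, ?_⟩
            obtain ⟨⟨h1, h2⟩, h3⟩ := mem_Rel.1 ha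
            rw [mem_Rel]
            have h4 := hn i
            have h5 := hnN i
            have h6 : ((2 * n i - 2 : ℕ) : ℤ) ≤ ((2 * N : ℕ) : ℤ) := by
              exact_mod_cast (by omega : 2 * n i - 2 ≤ 2 * N)
            exact ⟨⟨h1.trans h6, h2.trans h6⟩, h3⟩
          rw [he] at h2
          exact absurd h2 (Finset.notMem_empty _)
        intro a ha b hb
        rw [hz a ha, hz b hb]
      exact_mod_cast h1
    exact Finset.prod_le_one (fun i _ => Nat.cast_nonneg _) (fun i _ => hc1 i)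
  · obtain ⟨v, hv, hmin⟩ := Finset.exists_min_image _ ht hne
    have h1 : ∏ i, ((Rel (2 * n i - 2) s t).card : ℝ) ≤ ∏ i, (1 + 4 * ((n i : ℝ) - 1) / ht v) :=
      Finset.prod_le_prod (fun i _ => Nat.cast_nonneg _)
        (fun i _ => card_rel_le N (n i) (hn i) (hnN i) s t hs v hv hmin)
    have h2 : ∏ i, (1 + 4 * ((n i : ℝ) - 1) / (ht v : ℝ)) ≤
        ∑ q ∈ (Rel (2 * N) s t).erase 0, ∏ i, (1 + 4 * ((n i : ℝ) - 1) / ht q) :=
      Finset.single_le_sum (f := fun q : ℤ × ℤ => ∏ i, (1 + 4 * ((n i : ℝ) - 1) / (ht q : ℝ)))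
        (fun q _ => Finset.prod_nonneg (fun i _ => hnn q i)) hv
    linarith

end DSC
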