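import Pool.Agent.DSC.Rl

/-! DSC / Su: summation over `t`.

PROOF. `box_sum`: `ht (a, b) ≥ (1 + |a|) / 2` and `≥ (1 + |b|) / 2` for `(a, b) ≠ 0`, so `1 / ht⁴ ≤
16 / ((1 + |a|)² (1 + |b|)²)`, and the sum over the box is at most `16 (∑_{|a| ≤ M} 1 / (1 + |a|)²)² ≤ 16 * 9 = 144`
(`∑_{a ≥ 1} 1/(1+a)² ≤ ∑ 1/(a(a+1)) ≤ 1`).
`card_sol_le`: `b ≠ 0`: the set of the `t` with `a s + b t = 0` is empty or a coset of `{x : |b| x = 0}` (compare
`coset_le` in DSB/Co.lean), so has at most `|b|^r ≤ ht^r` elements. `b = 0`: `a s = 0`, `1 ≤ |a| ≤ 2N`, contradiction to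
`Gd`, so no element.
`sum_rel_le`: sum `prod_rel_le` over `t ∈ A` and interchange: `≤ |A| + ∑_{q ≠ 0 in the box} #{t ∈ A : q.1 s + q.2 t = 0} *
w (ht q)`, `w H = ∏ (1 + 4 (n i - 1) / H)`, and `#{...} * w (H) ≤ H^r w H ≤ W / H⁴` by `card_sol_le` and `hw` (`H = ht q`,
`1 ≤ H ≤ 2N`); then `box_sum`. -/

set_option autoImplicit false

open Finset

namespace DSC

private theorem ht_pos {q : ℤ × ℤ} (hq : q ≠ 0) : 1 ≤ ht q := by
  unfold ht
  by_contra h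
  have h1 : max q.1.natAbs q.2.natAbs = 0 := by omega
  have h2 : q.1.natAbs = 0 := Nat.le_zero.1 (h1 ▸ le_max_left _ _)
  have h3 : q.2.natAbs = 0 := Nat.le_zero.1 (h1 ▸ le_max_right _ _)
  exact hq (Prod.ext (Int.natAbs_eq_zero.1 h2) (Int.natAbs_eq_zero.1 h3))

private theorem sum_line (M : ℕ) : ∑ a ∈ Icc (-(M : ℤ)) M, 1 / (1 + (a.natAbs : ℝ)) ^ 2 ≤ 3 - 2 / ((M : ℝ) + 1) := by
  induction M with
  | zero => norm_num
  | succ M ih =>
    have hI : Icc (-((M + 1 : ℕ) : ℤ)) ((M + 1 : ℕ) : ℤ) =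
        insert (-((M : ℤ) + 1)) (insert ((M : ℤ) + 1) (Icc (-(M : ℤ)) M)) := by
      ext x
      simp only [mem_Icc, mem_insert]
      push_cast
      omega
    have h1 : ((M : ℤ) + 1) ∉ Icc (-(M : ℤ)) (M : ℤ) := by
      rw [mem_Icc]
      omega
    have h2 : (-((M : ℤ) + 1)) ∉ insert ((M : ℤ) + 1) (Icc (-(M : ℤ)) (M : ℤ)) := by
      rw [mem_insert, mem_Icc]
      omega
    rw [hI, sum_insert h2, sum_insert h1]
    have e1 : (-((M : ℤ) + 1)).natAbs = M + 1 := by omega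
    have e2 : ((M : ℤ) + 1).natAbs = M + 1 := by omega
    rw [e1, e2]
    push_cast
    have hM : (0 : ℝ) ≤ M := Nat.cast_nonneg M
    have h3 : 1 / (1 + ((M : ℝ) + 1)) ^ 2 ≤ 1 / ((M : ℝ) + 1) - 1 / ((M : ℝ) + 1 + 1) := by
      rw [div_sub_div _ _ (by positivity) (by positivity), div_le_div_iff₀ (by positivity) (by positivity)]
      nlinarith
    have h4 : 2 / ((M : ℝ) + 1) = 1 / ((M : ℝ) + 1) + 1 / ((M : ℝ) + 1) := by ring
    have h5 : 2 / ((M : ℝ) + 1 + 1) = 1 / ((M : ℝ) + 1 + 1) + 1 / ((M : ℝ) + 1 + 1) := by ring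
    rw [h4] at ih
    rw [h5]
    linarith

theorem box_sum (M : ℕ) : ∑ q ∈ ((Icc (-(M : ℤ)) M) ×ˢ (Icc (-(M : ℤ)) M)).erase 0, 1 / (ht q : ℝ) ^ 4 ≤ 144 := by
  have hl : ∑ a ∈ Icc (-(M : ℤ)) M, 1 / (1 + (a.natAbs : ℝ)) ^ 2 ≤ 3 := by
    refine (sum_line M).trans ?_
    have : (0 : ℝ) ≤ 2 / ((M : ℝ) + 1) := by positivity
    linarith
  have hl0 : 0 ≤ ∑ a ∈ Icc (-(M : ℤ)) M, 1 / (1 + (a.natAbs : ℝ)) ^ 2 :=
    sum_nonneg fun a _ => by positivity
  calc ∑ q ∈ ((Icc (-(M : ℤ)) M) ×ˢ (Icc (-(M : ℤ)) M)).erase 0, 1 / (ht q : ℝ) ^ 4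
      ≤ ∑ q ∈ ((Icc (-(M : ℤ)) M) ×ˢ (Icc (-(M : ℤ)) M)).erase 0,
          16 * (1 / (1 + (q.1.natAbs : ℝ)) ^ 2 * (1 / (1 + (q.2.natAbs : ℝ)) ^ 2)) := by
        refine sum_le_sum fun q hq => ?_
        have hp := ht_pos (mem_erase.1 hq).1
        have hp' : (1 : ℝ) ≤ ht q := by exact_mod_cast hp
        have ha : (q.1.natAbs : ℝ) ≤ ht q := by
          unfold ht
          exact_mod_cast le_max_left _ _
        have hb : (q.2.natAbs : ℝ) ≤ ht q := by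
          unfold ht
          exact_mod_cast le_max_right _ _
        have ha0 : (0 : ℝ) ≤ q.1.natAbs := Nat.cast_nonneg _
        have hb0 : (0 : ℝ) ≤ q.2.natAbs := Nat.cast_nonneg _
        have h1 : (1 + (q.1.natAbs : ℝ)) ^ 2 ≤ (2 * (ht q : ℝ)) ^ 2 := pow_le_pow_left₀ (by linarith) (by linarith) 2
        have h2 : (1 + (q.2.natAbs : ℝ)) ^ 2 ≤ (2 * (ht q : ℝ)) ^ 2 := pow_le_pow_left₀ (by linarith) (by linarith) 2
        have h3 : (1 + (q.1.natAbs : ℝ)) ^ 2 * (1 + (q.2.natAbs : ℝ)) ^ 2 ≤ 16 * (ht q : ℝ) ^ 4 := by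
          have := mul_le_mul h1 h2 (by positivity) (by positivity)
          nlinarith [this]
        have h4 : 16 * (1 / (1 + (q.1.natAbs : ℝ)) ^ 2 * (1 / (1 + (q.2.natAbs : ℝ)) ^ 2)) =
            16 / ((1 + (q.1.natAbs : ℝ)) ^ 2 * (1 + (q.2.natAbs : ℝ)) ^ 2) := by
          rw [div_mul_div_comm, one_mul, mul_one_div]
        rw [h4, div_le_div_iff₀ (by positivity) (by positivity)]
        linarith
    _ ≤ ∑ q ∈ (Icc (-(M : ℤ)) M) ×ˢ (Icc (-(M : ℤ)) M),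
          16 * (1 / (1 + (q.1.natAbs : ℝ)) ^ 2 * (1 / (1 + (q.2.natAbs : ℝ)) ^ 2)) :=
        sum_le_sum_of_subset_of_nonneg (erase_subset _ _) fun q _ _ => by positivity
    _ = 16 * ((∑ a ∈ Icc (-(M : ℤ)) M, 1 / (1 + (a.natAbs : ℝ)) ^ 2) *
          (∑ a ∈ Icc (-(M : ℤ)) M, 1 / (1 + (a.natAbs : ℝ)) ^ 2)) := by
        rw [← mul_sum, sum_mul_sum, sum_product]
    _ ≤ 16 * (3 * 3) := by
        have := mul_le_mul hl hl hl0 (by norm_num)
        linarith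
    _ = 144 := by norm_num

variable {G : Type*} [AddCommGroup G] [Fintype G]

private theorem natAbs_smul' {G : Type*} [AddCommGroup G] {e : ℤ} {x : G} (h : e • x = 0) : e.natAbs • x = 0 := by
  rcases Int.natAbs_eq e with h3 | h3
  · rw [← natCast_zsmul, ← h3, h]
  · have h4 : ((e.natAbs : ℕ) : ℤ) = - e := by omega
    rw [← natCast_zsmul, h4, neg_smul, h, neg_zero]

open Classical in
theorem card_sol_le (r N : ℕ) (hN : 1 ≤ N)
    (hT : ∀ d : ℕ, 1 ≤ d → d ≤ 2 * N → (Finset.univ.filter fun x : G => d • x = 0).card ≤ d ^ r)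
    (s : G) (hs : Gd (32 * N ^ 2) s) (q : ℤ × ℤ) (hq : q ≠ 0) (hq1 : |q.1| ≤ 2 * N) (hq2 : |q.2| ≤ 2 * N) :
    (Finset.univ.filter fun t : G => q.1 • s + q.2 • t = 0).card ≤ ht q ^ r := by
  by_cases hl : q.2 = 0
  · have he : (Finset.univ.filter fun t : G => q.1 • s + q.2 • t = 0) = ∅ := by
      rw [filter_eq_empty_iff]
      intro t _ h
      rw [hl, zero_smul, add_zero] at h
      have h1 : q.1 ≠ 0 := fun h1 => hq (Prod.ext h1 hl)
      have a1 : 1 ≤ q.1.natAbs := Nat.one_le_iff_ne_zero.mpr (Int.natAbs_ne_zero.mpr h1)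
      have a2 : q.1.natAbs ≤ 2 * N := by
        have : ((q.1.natAbs : ℕ) : ℤ) ≤ 2 * N := by rw [Int.natCast_natAbs]; exact hq1
        exact_mod_cast this
      have a3 : q.1.natAbs ≤ 32 * N ^ 2 := by nlinarith
      exact hs q.1.natAbs a1 a3 (natAbs_smul' h)
    rw [he, card_empty]
    exact Nat.zero_le _
  · rcases (Finset.univ.filter fun t : G => q.1 • s + q.2 • t = 0).eq_empty_or_nonempty with h | ⟨t₀, ht₀⟩
    · rw [h, card_empty]
      exact Nat.zero_le _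
    · have h0 := (mem_filter.1 ht₀).2
      have h1 : 1 ≤ q.2.natAbs := Nat.one_le_iff_ne_zero.mpr (Int.natAbs_ne_zero.mpr hl)
      have h2 : q.2.natAbs ≤ 2 * N := by
        have : ((q.2.natAbs : ℕ) : ℤ) ≤ 2 * N := by rw [Int.natCast_natAbs]; exact hq2
        exact_mod_cast this
      refine le_trans ?_ ((hT q.2.natAbs h1 h2).trans (Nat.pow_le_pow_left (le_max_right _ _) r))
      refine card_le_card_of_injOn (fun t => t - t₀) ?_ ?_
      · intro t ht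
        have ht1 := (mem_filter.1 (mem_coe.1 ht)).2
        refine mem_coe.2 (mem_filter.2 ⟨mem_univ _, natAbs_smul' ?_⟩)
        show q.2 • (t - t₀) = 0
        have : q.2 • (t - t₀) = (q.1 • s + q.2 • t) - (q.1 • s + q.2 • t₀) := by
          rw [smul_sub]
          abel
        rw [this, ht1, h0, sub_zero]
      · intro a _ b _ hab
        exact sub_left_injective hab

open Classical in
theorem sum_rel_le {k : ℕ} (r N : ℕ) (hN : 1 ≤ N)
    (hT : ∀ d : ℕ, 1 ≤ d → d ≤ 2 * N → (Finset.univ.filter fun x : G => d • x = 0).card ≤ d ^ r)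
    (n : Fin k → ℕ) (hn : ∀ i, 1 ≤ n i) (hnN : ∀ i, n i ≤ N)
    (A : Finset G) (s : G) (hs : Gd (32 * N ^ 2) s) (W : ℝ)
    (hw : ∀ H : ℕ, 1 ≤ H → H ≤ 2 * N → (H : ℝ) ^ (r + 4) * ∏ i, (1 + 4 * ((n i : ℝ) - 1) / H) ≤ W) :
    ∑ t ∈ A, ∏ i, ((Rel (2 * n i - 2) s t).card : ℝ) ≤ A.card + 144 * W := by
  set B : Finset (ℤ × ℤ) := ((Icc (-((2 * N : ℕ) : ℤ)) ((2 * N : ℕ) : ℤ)) ×ˢ
    (Icc (-((2 * N : ℕ) : ℤ)) ((2 * N : ℕ) : ℤ))).erase 0 with hB
  set w : ℕ → ℝ := fun H => ∏ i, (1 + 4 * ((n i : ℝ) - 1) / H) with hwdef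
  have hw0 : ∀ H : ℕ, 0 ≤ w H := fun H => prod_nonneg fun i _ => by
    have : (1 : ℝ) ≤ n i := by exact_mod_cast hn i
    have h1 : 0 ≤ (n i : ℝ) - 1 := by linarith
    positivity
  have hW0 : 0 ≤ W := by
    refine le_trans ?_ (hw 1 le_rfl (by omega))
    exact mul_nonneg (by positivity) (hw0 1)
  have hrel : ∀ t : G, (Rel (2 * N) s t).erase 0 = B.filter fun q => q.1 • s + q.2 • t = 0 := by
    intro t
    ext q
    simp only [Rel, hB, mem_erase, mem_filter]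
    tauto
  have h1 : ∀ t ∈ A, ∏ i, ((Rel (2 * n i - 2) s t).card : ℝ) ≤
      1 + ∑ q ∈ B, (if q.1 • s + q.2 • t = 0 then w (ht q) else 0) := by
    intro t _
    refine (prod_rel_le N n hn hnN s t hs).trans ?_
    rw [hrel t, sum_filter]
  have h2 : ∀ q ∈ B, ∑ t ∈ A, (if q.1 • s + q.2 • t = 0 then w (ht q) else 0) ≤ W * (1 / (ht q : ℝ) ^ 4) := by
    intro q hq
    rw [hB, mem_erase, mem_product, mem_Icc, mem_Icc] at hq
    obtain ⟨hq0, ⟨ha1, ha2⟩, hb1, hb2⟩ := hq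
    push_cast at ha1 ha2 hb1 hb2
    have hA1 : |q.1| ≤ 2 * (N : ℤ) := abs_le.2 ⟨ha1, ha2⟩
    have hB1 : |q.2| ≤ 2 * (N : ℤ) := abs_le.2 ⟨hb1, hb2⟩
    have hp := ht_pos hq0
    have hH : ht q ≤ 2 * N := by
      unfold ht
      refine max_le ?_ ?_
      · have : ((q.1.natAbs : ℕ) : ℤ) ≤ 2 * N := by rw [Int.natCast_natAbs]; exact hA1
        exact_mod_cast this
      · have : ((q.2.natAbs : ℕ) : ℤ) ≤ 2 * N := by rw [Int.natCast_natAbs]; exact hB1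
        exact_mod_cast this
    have hp' : (0 : ℝ) < ht q := by exact_mod_cast hp
    rw [← sum_filter, sum_const, nsmul_eq_mul]
    have hc : ((A.filter fun t => q.1 • s + q.2 • t = 0).card : ℝ) ≤ (ht q : ℝ) ^ r := by
      have := (card_le_card (filter_subset_filter (fun t : G => q.1 • s + q.2 • t = 0) (subset_univ A))).trans
        (card_sol_le r N hN hT s hs q hq0 hA1 hB1)
      exact_mod_cast this
    calc ((A.filter fun t => q.1 • s + q.2 • t = 0).card : ℝ) * w (ht q) ≤ (ht q : ℝ) ^ r * w (ht q) :=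
          mul_le_mul_of_nonneg_right hc (hw0 _)
      _ ≤ W * (1 / (ht q : ℝ) ^ 4) := by
          rw [mul_one_div, le_div_iff₀ (by positivity)]
          refine le_trans (le_of_eq ?_) (hw (ht q) hp hH)
          rw [pow_add]
          ring
  calc ∑ t ∈ A, ∏ i, ((Rel (2 * n i - 2) s t).card : ℝ)
      ≤ ∑ t ∈ A, (1 + ∑ q ∈ B, (if q.1 • s + q.2 • t = 0 then w (ht q) else 0)) := sum_le_sum h1
    _ = A.card + ∑ q ∈ B, ∑ t ∈ A, (if q.1 • s + q.2 • t = 0 then w (ht q) else 0) := by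
        rw [sum_add_distrib, sum_const, nsmul_eq_mul, mul_one, sum_comm]
    _ ≤ A.card + ∑ q ∈ B, W * (1 / (ht q : ℝ) ^ 4) := by
        have := sum_le_sum h2
        linarith
    _ = A.card + W * ∑ q ∈ B, 1 / (ht q : ℝ) ^ 4 := by rw [mul_sum]
    _ ≤ A.card + W * 144 := by
        have := mul_le_mul_of_nonneg_left (box_sum (2 * N)) hW0
        linarith
    _ = A.card + 144 * W := by ring

end DSC
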